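import Mathlib

/-!
Colength over the ground field: basic inequalities.
-/

set_option autoImplicit false

namespace Pool.Agent.H16Z.Lech

variable (k : Type*) {R : Type*} [Field k] [CommRing R] [Algebra k R]

/-- the dimension of `R / J` over the ground field -/
noncomputable def col (J : Ideal R) : ℕ∞ := Module.length k (R ⧸ J)

variable {k}

theorem col_anti {I J : Ideal R} (h : I ≤ J) : col k J ≤ col k I :=
  Module.length_le_of_surjective (Ideal.Quotient.factorₐ k h).toLinearMap
    (Ideal.Quotient.factor_surjective h)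

theorem col_top : col k (⊤ : Ideal R) = 0 := Module.length_eq_zero

theorem col_pos {I : Ideal R} (h : I ≠ ⊤) : 1 ≤ col k I := by
  haveI := Ideal.Quotient.nontrivial_iff.2 h
  exact Order.one_le_iff_pos.2 Module.length_pos

theorem col_eq_add (I : Ideal R) (x : R) :
    col k I = col k (Submodule.colon I {x}) + col k (I ⊔ Ideal.span {x}) := by
  let f : (R ⧸ Submodule.colon I {x}) →ₗ[R] R ⧸ I :=
    Submodule.mapQ _ I (LinearMap.toSpanSingleton R R x) (fun r hr => by
      rw [Submodule.mem_colon_singleton] at hr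
      exact hr)
  let g : (R ⧸ I) →ₗ[R] R ⧸ (I ⊔ Ideal.span {x}) :=
    Submodule.mapQ _ _ LinearMap.id (fun r hr => Ideal.mem_sup_left hr)
  have hf : ∀ r : R, f (Ideal.Quotient.mk _ r) = Ideal.Quotient.mk _ (r * x) := fun r => rfl
  have hg : ∀ r : R, g (Ideal.Quotient.mk _ r) = Ideal.Quotient.mk _ r := fun r => rfl
  refine Module.length_eq_add_of_exact (f.restrictScalars k) (g.restrictScalars k) ?_ ?_ ?_
  · change Function.Injective f
    rw [injective_iff_map_eq_zero]
    intro a ha
    obtain ⟨r, rfl⟩ := Ideal.Quotient.mk_surjective a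
    rw [hf, Ideal.Quotient.eq_zero_iff_mem] at ha
    rw [Ideal.Quotient.eq_zero_iff_mem, Submodule.mem_colon_singleton]
    exact ha
  · intro a
    obtain ⟨r, rfl⟩ := Ideal.Quotient.mk_surjective a
    exact ⟨Ideal.Quotient.mk _ r, rfl⟩
  · intro a
    obtain ⟨r, rfl⟩ := Ideal.Quotient.mk_surjective a
    change g _ = 0 ↔ ∃ b, f b = _
    rw [hg, Ideal.Quotient.eq_zero_iff_mem]
    constructor
    · intro h
      obtain ⟨u, hu, v, hv, rfl⟩ := Submodule.mem_sup.1 h
      obtain ⟨s, rfl⟩ := Ideal.mem_span_singleton'.1 hv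
      refine ⟨Ideal.Quotient.mk _ s, ?_⟩
      rw [hf, Ideal.Quotient.eq]
      simpa using hu
    · rintro ⟨b, hb⟩
      obtain ⟨s, rfl⟩ := Ideal.Quotient.mk_surjective b
      rw [hf, Ideal.Quotient.eq] at hb
      have : r = -(s * x - r) + s * x := by ring
      rw [this]
      exact Submodule.add_mem_sup (I.neg_mem hb) (Ideal.mem_span_singleton'.2 ⟨s, rfl⟩)

theorem col_add_one_le {I J : Ideal R} (h : I < J) : col k J + 1 ≤ col k I := by
  obtain ⟨x, hxJ, hxI⟩ := SetLike.exists_of_lt h
  rw [col_eq_add I x, add_comm]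
  refine add_le_add (col_pos fun h' => hxI ?_) (col_anti (sup_le h.le ?_))
  · have : (1 : R) ∈ Submodule.colon I {x} := by rw [h']; trivial
    simpa using this
  · rwa [Ideal.span_singleton_le_iff_mem]

theorem col_mul_le (A : Ideal R) (g h : R) :
    col k (A ⊔ Ideal.span {g * h}) ≤ col k (A ⊔ Ideal.span {g}) + col k (A ⊔ Ideal.span {h}) := by
  rw [col_eq_add (A ⊔ Ideal.span {g * h}) h]
  refine add_le_add (col_anti (sup_le ?_ ?_)) (col_anti (sup_le_sup_right le_sup_left _))
  · intro a ha
    rw [Submodule.mem_colon_singleton]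
    exact Ideal.mem_sup_left (A.mul_mem_right _ ha)
  · rw [Ideal.span_singleton_le_iff_mem, Submodule.mem_colon_singleton]
    exact Ideal.mem_sup_right (Ideal.mem_span_singleton_self _)

theorem col_pow_le (A : Ideal R) (g : R) (M : ℕ) :
    col k (A ⊔ Ideal.span {g ^ M}) ≤ M * col k (A ⊔ Ideal.span {g}) := by
  induction M with
  | zero => simp [col_top]
  | succ M ih =>
    rw [pow_succ, Nat.cast_succ, add_one_mul]
    exact (col_mul_le A _ _).trans (add_le_add ih le_rfl)

theorem span_range_succ {a : ℕ} (f : Fin (a + 1) → R) :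
    Ideal.span (Set.range f) = Ideal.span {f 0} ⊔ Ideal.span (Set.range (fun i => f (Fin.succ i))) := by
  rw [Fin.range_fin_succ, Ideal.span_insert]; rfl

theorem col_range_pow_le (M : ℕ) : ∀ (a : ℕ) (f : Fin a → R) (A : Ideal R),
    col k (A ⊔ Ideal.span (Set.range fun i => f i ^ M)) ≤
      (M ^ a : ℕ) * col k (A ⊔ Ideal.span (Set.range f)) := by
  intro a
  induction a with
  | zero => intro f A; simp [Set.range_eq_empty]
  | succ a ih =>
    intro f A
    rw [span_range_succ, span_range_succ f, ← sup_assoc]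
    refine (ih (fun i => f i.succ) _).trans ?_
    rw [sup_right_comm, pow_succ, Nat.cast_mul, mul_assoc]
    gcongr
    refine (col_pow_le _ _ _).trans (le_of_eq ?_)
    rw [sup_assoc, sup_comm (Ideal.span {f 0})]

theorem col_ideal_pow_le : ∀ (a : ℕ) (f : Fin a → R) (A : Ideal R) (t : ℕ),
    col k (A ⊔ Ideal.span (Set.range f) ^ (t + 1)) ≤
      ((t + a).choose a : ℕ) * col k (A ⊔ Ideal.span (Set.range f)) := by
  intro a
  induction a with
  | zero => intro f A t; simp [Set.range_eq_empty]
  | succ a ih =>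
    intro f A t
    induction t with
    | zero => simp
    | succ t iht =>
      rw [col_eq_add _ (f 0), show t + 1 + (a + 1) = (t + 1 + a) + 1 by ring, Nat.choose_succ_succ,
        Nat.cast_add, add_mul, add_comm]
      refine add_le_add ?_ ?_
      · refine le_trans (col_anti ?_) ((ih (fun i => f i.succ) (A ⊔ Ideal.span {f 0}) (t + 1)).trans
          (le_of_eq ?_))
        · have h1 : Ideal.span (Set.range fun i : Fin a => f i.succ) ≤ Ideal.span (Set.range f) := by
            rw [span_range_succ f]; exact le_sup_right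
          have h2 := Ideal.pow_right_mono h1 (t + 1 + 1)
          exact sup_le (sup_le (le_sup_of_le_left le_sup_left) le_sup_right)
            (le_sup_of_le_left (le_sup_of_le_right h2))
        · rw [span_range_succ f, sup_assoc]
      · refine le_trans (col_anti (sup_le ?_ ?_)) (iht.trans (le_of_eq ?_))
        · intro r hr
          rw [Submodule.mem_colon_singleton]
          exact Ideal.mem_sup_left (A.mul_mem_right _ hr)
        · intro r hr
          rw [Submodule.mem_colon_singleton, pow_succ _ (t + 1)]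
          exact Ideal.mem_sup_right (Ideal.mul_mem_mul hr (Ideal.subset_span ⟨0, rfl⟩))
        · rw [show t + (a + 1) = t + 1 + a by ring]

theorem col_pow_ne_top {J : Ideal R} (hJ : J.FG) (h : col k J ≠ ⊤) (t : ℕ) :
    col k (J ^ t) ≠ ⊤ := by
  rcases t with _ | t
  · simp [col_top]
  obtain ⟨a, f, rfl⟩ := Submodule.fg_iff_exists_fin_generating_family.1 hJ
  have := col_ideal_pow_le (k := k) a f ⊥ t
  rw [bot_sup_eq, bot_sup_eq] at this
  exact ne_top_of_le_ne_top (WithTop.mul_ne_top (ENat.natCast_ne_top _) h) this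

open IsLocalRing in
theorem pow_le_of_col [IsLocalRing R] (hm : (maximalIdeal R).FG) (J : Ideal R) (c : ℕ)
    (h : col k (J ⊔ maximalIdeal R ^ (c + 1)) ≤ c) : maximalIdeal R ^ c ≤ J := by
  by_contra hc
  have key : ∀ i ≤ c + 1, (i : ℕ∞) ≤ col k (J ⊔ maximalIdeal R ^ i) := by
    intro i
    induction i with
    | zero => simp
    | succ i ih =>
      intro hi
      have hlt : J ⊔ maximalIdeal R ^ (i + 1) < J ⊔ maximalIdeal R ^ i := by
        refine lt_of_le_of_ne (sup_le_sup_left (Ideal.pow_le_pow_right (by omega)) _) fun he => hc ?_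
        refine (Ideal.pow_le_pow_right (by omega : i ≤ c)).trans ?_
        refine Submodule.le_of_le_smul_of_le_jacobson_bot (Ideal.FG.pow hm) (maximalIdeal_le_jacobson _) ?_
        rw [smul_eq_mul, ← pow_succ', he]
        exact le_sup_right
      rw [Nat.cast_succ]
      exact (add_le_add (ih (by omega)) le_rfl).trans (col_add_one_le hlt)
  have := (key (c + 1) le_rfl).trans h
  norm_cast at this
  omega

end Pool.Agent.H16Z.Lech
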