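import Pool.Agent.H16Z.Lech.Mix

/-!
Full ideals and the main induction.
-/

set_option autoImplicit false

open scoped ENNReal
open IsLocalRing

namespace Pool.Agent.H16Z.Lech

universe u

variable {k : Type*} [Field k]

section
variable {R : Type*} [CommRing R] [Algebra k R]

/-- the Wong sequence of the pencil spanned by `x` and `y` on `R / I` -/
def wong (I : Ideal R) (x y : R) : ℕ → Ideal R
  | 0 => Submodule.colon I {x}
  | i + 1 => Submodule.colon (I ⊔ Ideal.span {y} * wong I x y i) {x}

theorem wong_mem (I : Ideal R) (x y : R) (t : k) (ht : t ≠ 0) : ∀ (i : ℕ), ∀ w ∈ wong I x y i,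
    y * w ∈ I ⊔ Ideal.span {x + t • y} := by
  have key : ∀ w : R, w * x ∈ I ⊔ Ideal.span {x + t • y} → y * w ∈ I ⊔ Ideal.span {x + t • y} := by
    intro w hw
    have e : y * w = t⁻¹ • (w * (x + t • y) - w * x) := by
      rw [mul_add, add_sub_cancel_left, mul_smul_comm, smul_smul, inv_mul_cancel₀ ht, one_smul,
        mul_comm]
    rw [e]
    exact Submodule.smul_of_tower_mem _ _ (Ideal.sub_mem _
      (Ideal.mem_sup_right (Ideal.mem_span_singleton'.2 ⟨w, rfl⟩)) hw)
  intro i
  induction i with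
  | zero =>
    intro w hw
    exact key w (Ideal.mem_sup_left (Submodule.mem_colon_singleton.1 hw))
  | succ i ih =>
    intro w hw
    refine key w ((sup_le le_sup_left ?_ : I ⊔ Ideal.span {y} * wong I x y i ≤ _)
      (Submodule.mem_colon_singleton.1 hw))
    rw [Ideal.span_singleton_mul_le_iff]
    exact ih

theorem wong_red (I : Ideal R) (x y : R)
    (h : ∀ i, ∀ w ∈ wong I x y i, y * w ∈ I ⊔ Ideal.span {x}) :
    ∃ K : Ideal R, I ≤ K ∧ K ≤ I ⊔ Ideal.span {x} ∧ K * K ≤ I * K ∧
      ∀ w, w * x ∈ I → y * w ∈ K := by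
  set W := ⨆ i, wong I x y i with hW
  set K := I ⊔ Ideal.span {x} * W with hK
  have h1 : ∀ i, Ideal.span {y} * wong I x y i ≤ K := by
    intro i
    rw [Ideal.span_singleton_mul_le_iff]
    intro w hw
    obtain ⟨u, hu, v, hv, huv⟩ := Submodule.mem_sup.1 (h i w hw)
    obtain ⟨s, rfl⟩ := Ideal.mem_span_singleton'.1 hv
    rw [← huv]
    refine Submodule.add_mem_sup hu ?_
    rw [mul_comm s x]
    refine Ideal.mul_mem_mul (Ideal.mem_span_singleton_self x) (le_iSup (wong I x y) (i + 1) ?_)
    refine Submodule.mem_colon_singleton.2 ?_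
    have : s • x = -u + y * w := by rw [← huv, smul_eq_mul]; ring
    rw [this]
    exact Submodule.add_mem_sup (I.neg_mem hu)
      (Ideal.mul_mem_mul (Ideal.mem_span_singleton_self y) hw)
  have h2 : Ideal.span {y} * W ≤ K := by
    rw [hW, Submodule.mul_iSup]
    exact iSup_le h1
  have hx : ∀ J : Ideal R, Ideal.span {x} * Submodule.colon J {x} ≤ J := by
    intro J
    rw [Ideal.span_singleton_mul_le_iff]
    intro w hw
    rw [mul_comm]
    exact Submodule.mem_colon_singleton.1 hw
  have h3 : ∀ i, Ideal.span {x} * wong I x y i * K ≤ I * K := by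
    intro i
    induction i with
    | zero => exact Ideal.mul_mono_left (hx I)
    | succ i ih =>
      refine (Ideal.mul_mono_left (hx _)).trans ?_
      rw [Ideal.sup_mul]
      refine sup_le le_rfl ?_
      conv_lhs => rw [hK, Ideal.mul_sup]
      refine sup_le ?_ ?_
      · rw [mul_comm]; exact Ideal.mul_mono_right (h1 i)
      · calc Ideal.span {y} * wong I x y i * (Ideal.span {x} * W)
            = Ideal.span {x} * wong I x y i * (Ideal.span {y} * W) := by ring
          _ ≤ Ideal.span {x} * wong I x y i * K := Ideal.mul_mono_right h2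
          _ ≤ I * K := ih
  refine ⟨K, le_sup_left, sup_le_sup_left Ideal.mul_le_left _, ?_, fun w hw => ?_⟩
  · conv_lhs => rw [hK, Ideal.sup_mul, ← hK]
    refine sup_le le_rfl ?_
    rw [hW, Submodule.mul_iSup, Submodule.iSup_mul]
    exact iSup_le h3
  · exact h1 0 (Ideal.mul_mem_mul (Ideal.mem_span_singleton_self y)
      (Submodule.mem_colon_singleton.2 hw))

theorem wong_of_min [Infinite k] [IsLocalRing R] (hm : (maximalIdeal R).FG)
    (hres : col k (maximalIdeal R) ≠ ⊤) (I : Ideal R) (hI : col k I ≠ ⊤) (x y : R)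
    (h : ∀ t : k, col k (I ⊔ Ideal.span {x}) ≤ col k (I ⊔ Ideal.span {x + t • y})) :
    ∀ i, ∀ w ∈ wong I x y i, y * w ∈ I ⊔ Ideal.span {x} := by
  intro i w hw
  by_contra hc
  obtain ⟨t, ht, h1, -⟩ := col_simul (k := k) hm hres (I ⊔ Ideal.span {y * w}) ⊥
    (fun _ : Unit => x) (fun _ => x + y)
  simp only [Set.range_const, add_sub_cancel_left] at h1
  have h2 : I ⊔ Ideal.span {y * w} ⊔ Ideal.span {x + t • y} = I ⊔ Ideal.span {x + t • y} := by
    rw [sup_right_comm, sup_eq_left, Ideal.span_singleton_le_iff_mem]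
    exact wong_mem I x y t ht i w hw
  have h3 : I ⊔ Ideal.span {x} < I ⊔ Ideal.span {y * w} ⊔ Ideal.span {x} := by
    rw [sup_right_comm, left_lt_sup, Ideal.span_singleton_le_iff_mem]
    exact hc
  rw [h2] at h1
  have h4 := (col_add_one_le (k := k) h3).trans ((h t).trans h1)
  have h5 : col k (I ⊔ Ideal.span {y * w} ⊔ Ideal.span {x}) ≠ ⊤ :=
    ne_top_of_le_ne_top hI (col_anti (le_sup_of_le_left le_sup_left))
  exact absurd h4 (not_le.2 (ENat.lt_add_one_iff h5 |>.2 le_rfl))

theorem exists_min (V : Submodule k R) (I : Ideal R) :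
    ∃ x ∈ V, (x ≠ 0 ∨ V = ⊥) ∧ ∀ z ∈ V, col k (I ⊔ Ideal.span {x}) ≤ col k (I ⊔ Ideal.span {z}) := by
  obtain ⟨x, hx⟩ := exists_minimalFor_of_wellFoundedLT (fun z => z ∈ V)
    (fun z => col k (I ⊔ Ideal.span {z})) ⟨0, V.zero_mem⟩
  have hx' : ∀ z ∈ V, col k (I ⊔ Ideal.span {x}) ≤ col k (I ⊔ Ideal.span {z}) :=
    fun z hz => hx.le hz
  by_cases h0 : x ≠ 0 ∨ V = ⊥
  · exact ⟨x, hx.1, h0, hx'⟩
  push Not at h0
  obtain ⟨y, hy, hy0⟩ := Submodule.exists_mem_ne_zero_of_ne_bot h0.2
  refine ⟨y, hy, Or.inl hy0, fun z hz => le_trans (col_anti ?_) (hx' z hz)⟩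
  rw [h0.1, Ideal.span_singleton_zero]
  exact sup_le_sup_left bot_le _

end

theorem main_bound [Infinite k] : ∀ (n : ℕ) (R : Type u) [CommRing R] [Algebra k R] [IsLocalRing R]
    (V : Submodule k R) [FiniteDimensional k V], Module.finrank k V ≤ n →
    maximalIdeal R = Ideal.span (V : Set R) → col k (maximalIdeal R) ≠ ⊤ →
    ∀ I : Ideal R, I ≠ ⊤ → col k I ≠ ⊤ →
      op 0 n (fun a b => E I I V a 0 b) ≤ (n.factorial : ℝ≥0∞) * (col k I : ℝ≥0∞) := by
  intro n
  induction n with
  | zero =>
    intro R _ _ _ V _ hV hm hres I hI hc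
    have hV0 : V = ⊥ := Submodule.finrank_eq_zero.1 (Nat.le_zero.1 hV)
    have hI0 : I = ⊥ := by
      have := le_maximalIdeal hI
      rw [hm, hV0] at this
      simpa using this
    refine (E_le one_pos (J := I) ⟨Fin.elim0, Fin.elim0, Fin.elim0, fun i => i.elim0,
      fun i => i.elim0, fun i => i.elim0, ?_⟩).trans (by simp)
    simp [hI0, Set.range_eq_empty]
  | succ n ih =>
    intro R _ _ _ V _ hV hm hres
    have hfg : (maximalIdeal R).FG := by
      obtain ⟨s, hs⟩ := (Submodule.fg_iff_finiteDimensional V).2 inferInstance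
      refine ⟨s, ?_⟩
      rw [hm, ← hs]
      exact (Submodule.span_span_of_tower k R _).symm
    suffices H : ∀ (c : ℕ) (I : Ideal R), col k I = c →
        op 0 (n + 1) (fun a b => E I I V a 0 b) ≤ ((n + 1).factorial : ℝ≥0∞) * (col k I : ℝ≥0∞) by
      intro I _ hc
      obtain ⟨c, hc⟩ := ENat.ne_top_iff_exists.1 hc
      exact H c I hc.symm
    intro c
    induction c using Nat.strong_induction_on with
    | _ c ihc =>
    intro I hc
    by_cases hI : I = ⊤
    · rw [hI, op_reorder]
      simp only [E_top, op_zero, zero_le]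
    have hct : col k I ≠ ⊤ := by rw [hc]; exact ENat.natCast_ne_top c
    have big : ∀ J : Ideal R, I < J → op 0 (n + 1) (fun a b => E J J V a 0 b) ≤
        ((n + 1).factorial : ℝ≥0∞) * (col k J : ℝ≥0∞) := by
      intro J hJ
      have h1 := col_add_one_le (k := k) hJ
      obtain ⟨c', hc'⟩ := ENat.ne_top_iff_exists.1 (ne_top_of_le_ne_top hct (col_anti hJ.le))
      refine ihc c' ?_ J hc'.symm
      rw [hc, ← hc'] at h1
      exact_mod_cast h1
    obtain ⟨x, hxV, hx0, hmin⟩ := exists_min V I
    have hxm : x ∈ maximalIdeal R := by rw [hm]; exact Ideal.subset_span hxV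
    have hIx : I ⊔ Ideal.span {x} ≤ maximalIdeal R :=
      sup_le (le_maximalIdeal hI) ((Ideal.span_singleton_le_iff_mem _).2 hxm)
    by_cases hfull : ∀ y ∈ V, ∀ g ∈ Submodule.colon I {x}, y * g ∈ I
    swap
    · push Not at hfull
      obtain ⟨y, hy, g, hg, hyg⟩ := hfull
      obtain ⟨K, hIK, -, hK, hK'⟩ := wong_red I x y (wong_of_min hfg hres I hct x y
        fun t => hmin _ (V.add_mem hxV (V.smul_mem t hy)))
      have hlt : I < K := lt_of_le_of_ne hIK fun he =>
        hyg (he ▸ hK' g (Submodule.mem_colon_singleton.1 hg))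
      refine (op_mono 0 _ _ _ fun a b => E_red hK a b).trans ((big K hlt).trans ?_)
      exact mul_le_mul_right (ENat.toENNReal_mono (col_anti hIK)) _
    set I' := Submodule.colon I {x} with hI'
    have hsum := col_eq_add (k := k) I x
    have hlt : I < I' := by
      refine lt_of_le_of_ne (fun r hr => Submodule.mem_colon_singleton.2 (I.mul_mem_right _ hr))
        fun he => ?_
      rw [← hI', ← he] at hsum
      have h1 := col_pos (k := k) (ne_top_of_le_ne_top (maximalIdeal.isMaximal R).ne_top hIx)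
      have h2 : col k I + 1 ≤ col k I := (add_le_add le_rfl h1).trans hsum.ge
      exact absurd h2 (not_le.2 (ENat.lt_add_one_iff hct |>.2 le_rfl))
    haveI : Nontrivial (R ⧸ Ideal.span {x}) := Ideal.Quotient.nontrivial_iff.2
      (ne_top_of_le_ne_top (maximalIdeal.isMaximal R).ne_top (le_sup_right.trans hIx))
    haveI : IsLocalRing (R ⧸ Ideal.span {x}) :=
      IsLocalRing.of_surjective' (Ideal.Quotient.mk _) Ideal.Quotient.mk_surjective
    set q := (Ideal.Quotient.mkₐ k (Ideal.span {x})).toLinearMap with hq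
    have hm' : maximalIdeal (R ⧸ Ideal.span {x}) =
        (maximalIdeal R).map (Ideal.Quotient.mk (Ideal.span {x})) :=
      (IsLocalRing.map_maximalIdeal_of_surjective _ Ideal.Quotient.mk_surjective).symm
    have hrank : Module.finrank k (V.map q) ≤ n := by
      rcases hx0 with hx0 | hx0
      · have h1 := LinearMap.finrank_range_add_finrank_ker (q.domRestrict V)
        rw [LinearMap.range_domRestrict] at h1
        have h2 : 0 < Module.finrank k (LinearMap.ker (q.domRestrict V)) := by
          refine Nat.pos_of_ne_zero fun h => hx0 ?_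
          have h3 := Submodule.finrank_eq_zero.1 h
          have h4 : (⟨x, hxV⟩ : V) ∈ LinearMap.ker (q.domRestrict V) :=
            Ideal.Quotient.eq_zero_iff_mem.2 (Ideal.mem_span_singleton_self x)
          rw [h3, Submodule.mem_bot] at h4
          exact congrArg Subtype.val h4
        omega
      · rw [hx0, Submodule.map_bot, finrank_bot]; exact Nat.zero_le _
    have hrec := ih (R ⧸ Ideal.span {x}) (V.map q) hrank
      (by rw [hm', hm, Ideal.map_span]; rfl)
      (by
        rw [hm']
        exact ne_top_of_le_ne_top hres ((col_map_quot' x _).trans (col_anti le_sup_left)))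
      (I.map (Ideal.Quotient.mk (Ideal.span {x})))
      (ne_top_of_le_ne_top (maximalIdeal.isMaximal _).ne_top
        (by rw [hm']; exact Ideal.map_mono (le_maximalIdeal hI)))
      (ne_top_of_le_ne_top hct ((col_map_quot' x _).trans (col_anti le_sup_left)))
    calc op 0 (n + 1) (fun a b => E I I V a 0 b) ≤ op 0 (n + 1) (fun a b => E I I' V a 0 b) :=
          op_mono 0 _ _ _ fun a b => E_left_le I a b
      _ ≤ op 0 (n + 1) (fun a b => E I I' V 0 a b) +
            ((n + 1 : ℕ) : ℝ≥0∞) * op 0 n (fun a b => E I I' V a 0 (b + 1)) :=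
          op_rec n (E I I' V) (E_sub hfg hres hfull)
      _ ≤ ((n + 1).factorial : ℝ≥0∞) * (col k I' : ℝ≥0∞) + ((n + 1 : ℕ) : ℝ≥0∞) *
            ((n.factorial : ℝ≥0∞) * (col k (I ⊔ Ideal.span {x}) : ℝ≥0∞)) := by
          refine add_le_add ((op_mono 0 _ _ _ fun a b => E_swap_le a b).trans (big I' hlt))
            (mul_le_mul_right ?_ _)
          refine (op_mono 0 _ _ _ fun a b => E_hyper hxV _ a b).trans (hrec.trans ?_)
          exact mul_le_mul_right (ENat.toENNReal_mono (col_map_quot' x I)) _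
      _ = ((n + 1).factorial : ℝ≥0∞) * (col k I : ℝ≥0∞) := by
          rw [hsum, ENat.toENNReal_add, Nat.factorial_succ, Nat.cast_mul]; ring

end Pool.Agent.H16Z.Lech
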