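import Pool.Agent.H16Z.Lech.Col

/-!
The Hilbert-Samuel function is eventually polynomial; the multiplicity is an integer.
-/

set_option autoImplicit false

open Filter Topology

namespace Pool.Agent.H16Z.Lech

/-- the `r`-th difference vanishes eventually -/
def Poly : ℕ → (ℕ → ℤ) → Prop
  | 0, g => ∀ᶠ t in atTop, g t = 0
  | r + 1, g => Poly r (fun t => g (t + 1) - g t)

theorem Poly.succ : ∀ {r : ℕ} {g : ℕ → ℤ}, Poly r g → Poly (r + 1) g
  | 0, g, h => by
      have h' := (tendsto_add_atTop_nat 1).eventually h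
      filter_upwards [h, h'] with t h1 h2
      rw [h1, h2, sub_zero]
  | r + 1, _, h => Poly.succ (r := r) h

theorem Poly.mono {r s : ℕ} {g : ℕ → ℤ} (h : Poly r g) (hrs : r ≤ s) : Poly s g := by
  induction s, hrs using Nat.le_induction with
  | base => exact h
  | succ s _ ih => exact ih.succ

theorem Poly.shift : ∀ {r : ℕ} {g : ℕ → ℤ}, Poly r g → Poly r (fun t => g (t + 1))
  | 0, _, h => (tendsto_add_atTop_nat 1).eventually h
  | r + 1, _, h => Poly.shift (r := r) h

theorem Poly.sub : ∀ {r : ℕ} {g g' : ℕ → ℤ}, Poly r g → Poly r g' → Poly r (fun t => g t - g' t)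
  | 0, g, g', h, h' => by
      filter_upwards [h, h'] with t h1 h2
      rw [h1, h2, sub_zero]
  | r + 1, g, g', h, h' => by
      have := Poly.sub (r := r) h h'
      change Poly r _
      convert this using 2
      ring

theorem Poly.binom : ∀ {r : ℕ} {g : ℕ → ℤ}, Poly r g →
    ∃ a : ℕ → ℤ, ∀ᶠ t in atTop, g t = ∑ j ∈ Finset.range r, a j * (t.choose j : ℤ)
  | 0, g, h => ⟨fun _ => 0, h⟩
  | r + 1, g, h => by
      obtain ⟨a, ha⟩ := Poly.binom (r := r) h
      obtain ⟨t0, ht0⟩ := eventually_atTop.1 ha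
      refine ⟨fun j => Nat.casesOn j (g t0 - ∑ j ∈ Finset.range r, a j * (t0.choose (j + 1) : ℤ)) a,
        eventually_atTop.2 ⟨t0, fun t ht => ?_⟩⟩
      rw [Finset.sum_range_succ']
      simp only [Nat.choose_zero_right, Nat.cast_one, mul_one]
      induction t, ht using Nat.le_induction with
      | base => change g t0 = _ + (g t0 - _); ring
      | succ t ht ih =>
        have h1 := ht0 t ht
        simp only [Nat.choose_succ_succ, Nat.cast_add, mul_add, Finset.sum_add_distrib]
        change g t = _ + (g t0 - _) at ih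
        change g (t + 1) = _ + (g t0 - _)
        simp only [Nat.succ_eq_add_one]
        linarith

theorem tendsto_choose (D j : ℕ) (hj : j ≤ D) :
    Tendsto (fun t : ℕ => (D.factorial : ℝ) * (t.choose j : ℝ) / (t : ℝ) ^ D) atTop
      (𝓝 (if j = D then 1 else 0)) := by
  have h1 : Tendsto (fun t : ℕ => (t.choose j : ℝ) / ((t : ℝ) ^ j / j.factorial)) atTop (𝓝 1) := by
    refine (Asymptotics.isEquivalent_iff_tendsto_one ?_).1 (isEquivalent_choose j)
    filter_upwards [eventually_gt_atTop 0] with t ht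
    positivity
  have h2 : Tendsto (fun t : ℕ => (D.factorial : ℝ) / j.factorial * ((t : ℝ)⁻¹) ^ (D - j)) atTop
      (𝓝 ((D.factorial : ℝ) / j.factorial * 0 ^ (D - j))) :=
    (tendsto_inv_atTop_nhds_zero_nat.pow _).const_mul _
  have h3 := h1.mul h2
  have e : (1 * ((D.factorial : ℝ) / j.factorial * 0 ^ (D - j))) = if j = D then 1 else 0 := by
    split_ifs with h
    · rw [h, Nat.sub_self, pow_zero, div_self (by positivity)]; ring
    · rw [zero_pow (by omega)]; ring
  rw [e] at h3
  refine h3.congr' ?_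
  filter_upwards [eventually_gt_atTop 0] with t ht
  obtain ⟨i, rfl⟩ := Nat.exists_eq_add_of_le hj
  have : (t : ℝ) ≠ 0 := by positivity
  rw [Nat.add_sub_cancel_left, pow_add, inv_pow]
  field_simp

theorem tendsto_binom (D : ℕ) (a : ℕ → ℤ) (r : ℕ) (hr : r ≤ D + 1) :
    Tendsto (fun t : ℕ => (D.factorial : ℝ) *
      ((∑ j ∈ Finset.range r, a j * (t.choose j : ℤ) : ℤ) : ℝ) / (t : ℝ) ^ D) atTop
      (𝓝 ((∑ j ∈ Finset.range r, if j = D then a j else 0 : ℤ) : ℝ)) := by
  have := tendsto_finsetSum (Finset.range r) fun j hj =>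
    (tendsto_choose D j (by have := Finset.mem_range.1 hj; omega)).const_mul (a j : ℝ)
  push_cast
  simp only [mul_ite, mul_one, mul_zero] at this
  refine this.congr fun t => ?_
  rw [Finset.mul_sum, Finset.sum_div]
  exact Finset.sum_congr rfl fun j _ => by ring

theorem int_limit {g : ℕ → ℤ} {D : ℕ} {C : ℝ} (a : ℕ → ℤ)
    (he : ∀ᶠ t : ℕ in atTop, |(g t : ℝ)| ≤ C * (t : ℝ) ^ D) :
    ∀ r : ℕ, (∀ᶠ t in atTop, g t = ∑ j ∈ Finset.range r, a j * (t.choose j : ℤ)) →
      ∃ z : ℤ, Tendsto (fun t : ℕ => (D.factorial : ℝ) * (g t : ℝ) / (t : ℝ) ^ D) atTop (𝓝 z) := by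
  intro r
  induction r with
  | zero =>
    intro h
    refine ⟨_, (tendsto_binom D a 0 (by omega)).congr' ?_⟩
    filter_upwards [h] with t ht
    rw [ht]
  | succ r ih =>
    intro h
    by_cases hr : r ≤ D
    · refine ⟨_, (tendsto_binom D a (r + 1) (by omega)).congr' ?_⟩
      filter_upwards [h] with t ht
      rw [ht]
    · have h1 : Tendsto (fun t : ℕ => (r.factorial : ℝ) * (g t : ℝ) / (t : ℝ) ^ r) atTop
          (𝓝 (a r : ℝ)) := by
        have := tendsto_binom r a (r + 1) le_rfl
        rw [Finset.sum_ite_eq' (Finset.range (r + 1)) r a, if_pos (by simp)] at this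
        refine this.congr' ?_
        filter_upwards [h] with t ht
        rw [ht]
      have h2 : Tendsto (fun t : ℕ => (r.factorial : ℝ) * (g t : ℝ) / (t : ℝ) ^ r) atTop (𝓝 0) := by
        have h3 := (tendsto_inv_atTop_nhds_zero_nat (𝕜 := ℝ).pow (r - D)).const_mul
          ((r.factorial : ℝ) * C)
        rw [zero_pow (by omega), mul_zero] at h3
        refine squeeze_zero_norm' ?_ h3
        filter_upwards [eventually_gt_atTop 0, he] with t ht hb
        obtain ⟨i, rfl⟩ := Nat.exists_eq_add_of_le (by omega : D ≤ r)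
        have : (0 : ℝ) < t := by positivity
        rw [Nat.add_sub_cancel_left, Real.norm_eq_abs, abs_div, abs_mul, Nat.abs_cast,
          abs_of_pos (pow_pos this _), div_le_iff₀ (pow_pos this _), pow_add, inv_pow]
        refine (mul_le_mul_of_nonneg_left hb (Nat.cast_nonneg _)).trans (le_of_eq ?_)
        field_simp
      have h4 : a r = 0 := by exact_mod_cast tendsto_nhds_unique h1 h2
      refine ih ?_
      filter_upwards [h] with t ht
      rw [ht, Finset.sum_range_succ, h4, zero_mul, add_zero]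

variable {k R : Type*} [Field k] [CommRing R] [Algebra k R]

theorem col_modular (A C : Ideal R) : col k A + col k C = col k (A ⊓ C) + col k (A ⊔ C) := by
  let f : (R ⧸ A ⊓ C) →ₗ[k] (R ⧸ A) × (R ⧸ C) :=
    (Ideal.Quotient.factorₐ k (inf_le_left : A ⊓ C ≤ A)).toLinearMap.prod
      (Ideal.Quotient.factorₐ k (inf_le_right : A ⊓ C ≤ C)).toLinearMap
  let g : ((R ⧸ A) × (R ⧸ C)) →ₗ[k] R ⧸ A ⊔ C :=
    (Ideal.Quotient.factorₐ k (le_sup_left : A ≤ A ⊔ C)).toLinearMap.coprod
      (-(Ideal.Quotient.factorₐ k (le_sup_right : C ≤ A ⊔ C)).toLinearMap)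
  have hf : ∀ r : R, f (Ideal.Quotient.mk _ r) = (Ideal.Quotient.mk _ r, Ideal.Quotient.mk _ r) :=
    fun r => rfl
  have hg : ∀ r s : R, g (Ideal.Quotient.mk _ r, Ideal.Quotient.mk _ s) =
      Ideal.Quotient.mk _ (r - s) := fun r s => by rw [map_sub, sub_eq_add_neg]; rfl
  rw [col, col, ← Module.length_prod]
  refine Module.length_eq_add_of_exact f g ?_ ?_ ?_
  · rw [injective_iff_map_eq_zero]
    intro a ha
    obtain ⟨r, rfl⟩ := Ideal.Quotient.mk_surjective a
    rw [hf, Prod.mk_eq_zero, Ideal.Quotient.eq_zero_iff_mem, Ideal.Quotient.eq_zero_iff_mem] at ha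
    exact Ideal.Quotient.eq_zero_iff_mem.2 ha
  · intro a
    obtain ⟨r, rfl⟩ := Ideal.Quotient.mk_surjective a
    exact ⟨(Ideal.Quotient.mk _ r, Ideal.Quotient.mk _ 0), by rw [hg, sub_zero]⟩
  · rintro ⟨a, b⟩
    obtain ⟨r, rfl⟩ := Ideal.Quotient.mk_surjective a
    obtain ⟨s, rfl⟩ := Ideal.Quotient.mk_surjective b
    rw [hg, Ideal.Quotient.eq_zero_iff_mem]
    constructor
    · intro h
      obtain ⟨u, hu, v, hv, huv⟩ := Submodule.mem_sup.1 h
      refine ⟨Ideal.Quotient.mk _ (r - u), ?_⟩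
      rw [hf, Prod.mk.injEq, Ideal.Quotient.eq, Ideal.Quotient.eq]
      refine ⟨by simpa using hu, ?_⟩
      have : r - u - s = v := by linear_combination -huv
      rwa [this]
    · rintro ⟨c, hc⟩
      obtain ⟨w, rfl⟩ := Ideal.Quotient.mk_surjective c
      rw [hf, Prod.mk.injEq, Ideal.Quotient.eq, Ideal.Quotient.eq] at hc
      have : r - s = -(w - r) + (w - s) := by ring
      rw [this]
      exact Submodule.add_mem_sup (A.neg_mem hc.1) hc.2

theorem col_ker_coker (A B : Ideal R) (y : R) :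
    col k (A ⊓ Submodule.colon B {y}) + col k (B ⊔ Ideal.span {y} * A) = col k A + col k B := by
  have e1 : Submodule.colon (B ⊔ Ideal.span {y} * A) {y} = A ⊔ Submodule.colon B {y} := by
    apply le_antisymm
    · intro r hr
      obtain ⟨u, hu, v, hv, huv⟩ := Submodule.mem_sup.1 (Submodule.mem_colon_singleton.1 hr)
      obtain ⟨a, ha, rfl⟩ := Ideal.mem_span_singleton_mul.1 hv
      have : r = a + (r - a) := by ring
      rw [this]
      refine Submodule.add_mem_sup ha (Submodule.mem_colon_singleton.2 ?_)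
      have h2 : (r - a) • y = u := by
        rw [smul_eq_mul] at huv ⊢; linear_combination -huv
      rwa [h2]
    · refine sup_le (fun a ha => Submodule.mem_colon_singleton.2 ?_)
        (fun a ha => Submodule.mem_colon_singleton.2 ?_)
      · rw [smul_eq_mul, mul_comm a y]
        exact Ideal.mem_sup_right (Ideal.mul_mem_mul (Ideal.mem_span_singleton_self y) ha)
      · exact Ideal.mem_sup_left (Submodule.mem_colon_singleton.1 ha)
  have e2 : B ⊔ Ideal.span {y} * A ⊔ Ideal.span {y} = B ⊔ Ideal.span {y} := by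
    rw [sup_assoc, sup_eq_right.2 (Ideal.mul_le_left : Ideal.span {y} * A ≤ Ideal.span {y})]
  rw [col_eq_add (B ⊔ Ideal.span {y} * A) y, col_eq_add B y, e1, e2, ← add_assoc, ← add_assoc,
    col_modular A]

theorem hilbert_serre [IsNoetherianRing R] (G : Set R) (S : Finset R) :
    (∀ y ∈ S, y ∈ Ideal.span G) → ∀ (A : (Ideal.span G).Filtration R) (B : ℕ → Ideal R),
      A ≤ (Ideal.span G).stableFiltration ⊤ → (∀ t, B t ≤ A.N t) → (∀ t, A.N (t + 1) ≤ B t) →
      (∀ t, Ideal.span G * B t ≤ B (t + 1)) → (∀ t, col k (B t) ≠ ⊤) →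
      (∀ y ∈ G, y ∉ S → ∀ t, ∀ a ∈ A.N t, y * a ∈ B (t + 1)) →
      ∃ r, Poly r (fun t => ((col k (B t)).toNat : ℤ) - (col k (A.N t)).toNat) := by
  classical
  induction S using Finset.induction_on with
  | empty =>
    intro _ A B hA h1 _ _ _ h5
    obtain ⟨n0, hn0⟩ := (Ideal.stableFiltration_stable (Ideal.span G) ⊤).of_le hA
    refine ⟨0, eventually_atTop.2 ⟨n0 + 1, fun t ht => ?_⟩⟩
    obtain ⟨t, rfl⟩ : ∃ s, t = s + 1 := ⟨t - 1, by omega⟩
    have : B (t + 1) = A.N (t + 1) := by
      refine le_antisymm (h1 _) ?_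
      rw [← hn0 t (by omega)]
      refine Submodule.smul_le.2 fun y hy a ha => ?_
      induction hy using Submodule.span_induction with
      | mem y hy => exact h5 y hy (by simp) t a ha
      | zero => simp
      | add u v _ _ hu hv => rw [add_smul]; exact Ideal.add_mem _ hu hv
      | smul u v _ hv => rw [smul_assoc]; exact Ideal.mul_mem_left _ _ hv
    simp only [this, sub_self]
  | insert y S hy ih =>
    intro hS A B hA h1 h2 h3 h4 h5
    have hyG : y ∈ Ideal.span G := hS y (Finset.mem_insert_self _ _)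
    have hS' : ∀ z ∈ S, z ∈ Ideal.span G := fun z hz => hS z (Finset.mem_insert_of_mem hz)
    let A' : (Ideal.span G).Filtration R :=
      { N := fun t => A.N t ⊓ Submodule.colon (B (t + 1)) {y}
        mono := fun t a ha => ⟨A.mono t ha.1, Submodule.mem_colon_singleton.2
          (h2 _ (h1 _ (Submodule.mem_colon_singleton.1 ha.2)))⟩
        smul_le := fun t => by
          refine Submodule.smul_le.2 fun r hr a ha => ⟨A.smul_le t (Submodule.smul_mem_smul hr ha.1),
            Submodule.mem_colon_singleton.2 ?_⟩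
          rw [smul_assoc]
          exact h3 _ (Ideal.mul_mem_mul hr (Submodule.mem_colon_singleton.1 ha.2)) }
    let B' : ℕ → Ideal R := fun t => Nat.casesOn t (B 0) fun s => B (s + 1) ⊔ Ideal.span {y} * A.N s
    have hyA : ∀ t, Ideal.span {y} * A.N t ≤ A.N (t + 1) := fun t =>
      (Ideal.mul_mono_left ((Ideal.span_singleton_le_iff_mem _).2 hyG)).trans (A.smul_le t)
    have hBB : ∀ t, B t ≤ B' t := fun t => by
      cases t with
      | zero => exact le_rfl
      | succ t => exact le_sup_left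
    obtain ⟨r1, hr1⟩ := ih hS' A' B (fun t => inf_le_left.trans (hA t))
      (fun t b hb => ⟨h1 t hb, Submodule.mem_colon_singleton.2 (by
        rw [smul_eq_mul, mul_comm]; exact h3 t (Ideal.mul_mem_mul hyG hb))⟩)
      (fun t => inf_le_left.trans (h2 t)) h3 h4 (fun z hz hzS t a ha => by
        by_cases hzy : z = y
        · rw [hzy, mul_comm]; exact Submodule.mem_colon_singleton.1 ha.2
        · exact h5 z hz (by simp [hzy, hzS]) t a ha.1)
    obtain ⟨r2, hr2⟩ := ih hS' A B' hA
      (fun t => by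
        cases t with
        | zero => exact h1 0
        | succ t => exact sup_le (h1 _) (hyA t))
      (fun t => (h2 t).trans (hBB t))
      (fun t => by
        cases t with
        | zero => exact (h3 0).trans le_sup_left
        | succ t =>
          change Ideal.span G * (B (t + 1) ⊔ Ideal.span {y} * A.N t) ≤
            B (t + 1 + 1) ⊔ Ideal.span {y} * A.N (t + 1)
          rw [Ideal.mul_sup, mul_left_comm]
          exact sup_le_sup (h3 _) (Ideal.mul_mono_right (A.smul_le t)))
      (fun t => ne_top_of_le_ne_top (h4 t) (col_anti (hBB t)))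
      (fun z hz hzS t a ha => by
        by_cases hzy : z = y
        · rw [hzy]
          exact Ideal.mem_sup_right (Ideal.mul_mem_mul (Ideal.mem_span_singleton_self y) ha)
        · exact Ideal.mem_sup_left (h5 z hz (by simp [hzy, hzS]) t a ha))
    refine ⟨max r1 r2 + 1, ?_⟩
    have := ((hr2.mono (le_max_right r1 r2)).shift).sub (hr1.mono (le_max_left r1 r2))
    change Poly (max r1 r2) _
    convert this using 2 with t
    have key := col_ker_coker (k := k) (A.N t) (B (t + 1)) y
    have f1 : col k (A.N t) ≠ ⊤ := ne_top_of_le_ne_top (h4 t) (col_anti (h1 t))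
    have f2 := h4 (t + 1)
    have f3 : col k (A.N t) + col k (B (t + 1)) ≠ ⊤ := WithTop.add_ne_top.2 ⟨f1, f2⟩
    rw [← key] at f3
    have key' := congrArg ENat.toNat key
    rw [ENat.toNat_add (WithTop.add_ne_top.1 f3).1 (WithTop.add_ne_top.1 f3).2,
      ENat.toNat_add f1 f2] at key'
    change _ = ((col k (B (t + 1) ⊔ Ideal.span {y} * A.N t)).toNat : ℤ) - _ -
      (_ - ((col k (A.N t ⊓ Submodule.colon (B (t + 1)) {y})).toNat : ℤ))
    beta_reduce
    have key2 : ((col k (A.N t ⊓ Submodule.colon (B (t + 1)) {y})).toNat : ℤ) +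
      ((col k (B (t + 1) ⊔ Ideal.span {y} * A.N t)).toNat : ℤ) =
      ((col k (A.N t)).toNat : ℤ) + ((col k (B (t + 1))).toNat : ℤ) := by exact_mod_cast key'
    linarith

theorem mult_int [IsNoetherianRing R] (I : Ideal R) (hI : col k I ≠ ⊤) {D : ℕ} {C : ℝ}
    (he : ∀ᶠ t : ℕ in atTop, ((col k (I ^ t)).toNat : ℝ) ≤ C * (t : ℝ) ^ D) : ∃ z : ℤ,
    Tendsto (fun t : ℕ => (D.factorial : ℝ) * ((col k (I ^ t)).toNat : ℝ) / (t : ℝ) ^ D)
      atTop (𝓝 z) := by
  obtain ⟨S, rfl⟩ := IsNoetherian.noetherian I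
  have hN : ∀ t, ((Ideal.span (S : Set R)).stableFiltration (⊤ : Submodule R R)).N t =
      Ideal.span (S : Set R) ^ t := fun t => by
    change Ideal.span (S : Set R) ^ t • (⊤ : Ideal R) = _
    rw [smul_eq_mul, Ideal.mul_top]
  obtain ⟨r, hr⟩ := hilbert_serre (k := k) (S : Set R) S (fun y hy => Ideal.subset_span hy)
    ((Ideal.span (S : Set R)).stableFiltration ⊤) (fun t => Ideal.span (S : Set R) ^ (t + 1)) le_rfl
    (fun t => by rw [hN]; exact Ideal.pow_le_pow_right (Nat.le_succ t))
    (fun t => by rw [hN]) (fun t => by rw [← pow_succ'])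
    (fun t => col_pow_ne_top ⟨S, rfl⟩ hI _) (fun y hy hy' => absurd hy hy')
  simp only [hN] at hr
  have h2 : Poly (r + 1) (fun t => ((col k (Ideal.span (S : Set R) ^ t)).toNat : ℤ)) := hr
  obtain ⟨a, ha⟩ := h2.binom
  simpa using int_limit (C := C) (D := D) a (by simpa using he) _ ha

end Pool.Agent.H16Z.Lech
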