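import Pool.Agent.H16Z.Lech.Full
import Pool.Agent.H16Z.Lech.HS

/-!
Comparison with Hilbert-Samuel multiplicities in the power series ring.
-/

set_option autoImplicit false

open Filter Topology IsLocalRing
open scoped ENNReal

namespace Pool.Agent.H16Z.Lech

variable {k : Type*} [Field k]

theorem mult_le {R : Type*} [CommRing R] [Algebra k R] [IsNoetherianRing R] (I L : Ideal R)
    {a N C : ℕ} (hN : 0 < N) (f : Fin a → R) (hf : ∀ i, f i ∈ I ^ N)
    (hC : col k (Ideal.span (Set.range f) ⊔ L) ≤ C) :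
    ∃ z : ℤ, Tendsto (fun t : ℕ => (a.factorial : ℝ) * ((col k (I ^ t ⊔ L)).toNat : ℝ) / (t : ℝ) ^ a)
      atTop (𝓝 z) ∧ (z : ℝ) ≤ C / (N : ℝ) ^ a := by
  have hN' : (0 : ℝ) < N := by exact_mod_cast hN
  have hQ : Ideal.span (Set.range f) ≤ I ^ N := by
    rw [Ideal.span_le]; rintro _ ⟨i, rfl⟩; exact hf i
  have hb : ∀ t : ℕ, 0 < t → (a.factorial : ℝ) * ((col k (I ^ t ⊔ L)).toNat : ℝ) / (t : ℝ) ^ a ≤
      (1 / N + a * (t : ℝ)⁻¹) ^ a * C := by
    intro t ht
    have ht' : (0 : ℝ) < t := by exact_mod_cast ht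
    have h1 : col k (I ^ t ⊔ L) ≤ (((t / N + a).choose a * C : ℕ) : ℕ∞) := by
      refine le_trans (col_anti ?_) ((col_ideal_pow_le a f L (t / N)).trans ?_)
      · refine sup_le le_sup_right (le_sup_of_le_left ((Ideal.pow_right_mono hQ _).trans ?_))
        rw [← pow_mul]
        exact Ideal.pow_le_pow_right (Nat.lt_mul_div_succ t hN).le
      · rw [Nat.cast_mul, sup_comm]
        exact mul_le_mul_right hC _
    have h2 : (col k (I ^ t ⊔ L)).toNat ≤ (t / N + a).choose a * C := ENat.toNat_le_of_le_natCast h1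
    have h3 : a.factorial * (col k (I ^ t ⊔ L)).toNat ≤ (t / N + a) ^ a * C := by
      refine (Nat.mul_le_mul_left _ h2).trans ?_
      rw [← mul_assoc, ← Nat.descFactorial_eq_factorial_mul_choose]
      exact Nat.mul_le_mul_right _ (Nat.descFactorial_le_pow _ _)
    have h4 : (a.factorial : ℝ) * ((col k (I ^ t ⊔ L)).toNat : ℝ) ≤
        (((t / N : ℕ) : ℝ) + a) ^ a * C := by exact_mod_cast h3
    rw [div_le_iff₀ (pow_pos ht' _)]
    refine h4.trans ?_
    rw [mul_right_comm, ← mul_pow]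
    gcongr
    have h5 : ((t / N : ℕ) : ℝ) ≤ t / N := Nat.cast_div_le
    refine (add_le_add h5 le_rfl).trans (le_of_eq ?_)
    field_simp
  have hcol : ∀ J : Ideal R, col k (J.map (Ideal.Quotient.mk L)) = col k (J ⊔ L) := fun J => by
    rw [sup_comm]
    exact (DoubleQuot.quotQuotEquivQuotSupₐ k L J).toLinearEquiv.length_eq
  obtain ⟨z, hz⟩ := mult_int (k := k) (I.map (Ideal.Quotient.mk L)) (by
      rw [hcol]
      refine ne_top_of_le_ne_top (ENat.natCast_ne_top C) (le_trans (col_anti ?_) hC)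
      exact sup_le_sup_right (hQ.trans (Ideal.pow_le_self hN.ne')) _)
    (D := a) (C := (1 / N + a) ^ a * C) (by
      filter_upwards [eventually_gt_atTop 0] with t ht
      have ht' : (0 : ℝ) < t := by exact_mod_cast ht
      have h1 := hb t ht
      rw [div_le_iff₀ (pow_pos ht' _)] at h1
      rw [← Ideal.map_pow, hcol]
      have h2 : (1 : ℝ) ≤ a.factorial := by exact_mod_cast a.factorial_pos
      refine le_trans (le_mul_of_one_le_left (Nat.cast_nonneg _) h2) (h1.trans ?_)
      gcongr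
      refine mul_le_of_le_one_right (Nat.cast_nonneg _) (inv_le_one_of_one_le₀ ?_)
      exact_mod_cast ht)
  simp only [← Ideal.map_pow, hcol] at hz
  refine ⟨z, hz, ?_⟩
  have lim : Tendsto (fun t : ℕ => (1 / N + a * (t : ℝ)⁻¹) ^ a * C) atTop
      (𝓝 ((1 / N + a * 0) ^ a * C)) :=
    (((tendsto_inv_atTop_nhds_zero_nat.const_mul _).const_add _).pow _).mul_const _
  refine (le_of_tendsto_of_tendsto hz lim ?_).trans (le_of_eq ?_)
  · filter_upwards [eventually_gt_atTop 0] with t ht using hb t ht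
  · rw [mul_zero, add_zero, div_pow]; ring

theorem coeff_pos : ∀ n j : ℕ, j ≤ n → 0 < (ascPochhammer ℕ (n + 1)).coeff (j + 1) := by
  intro n
  induction n with
  | zero => intro j hj; rw [Nat.le_zero.1 hj]; simp
  | succ n ih =>
    intro j hj
    rw [ascPochhammer_succ_right, mul_add, Polynomial.coeff_add, Polynomial.coeff_mul_X,
      Polynomial.coeff_mul_natCast]
    rcases j with _ | j
    · exact Nat.add_pos_right _ (Nat.mul_pos (ih 0 (by omega)) (by simp))
    · exact Nat.add_pos_left (ih j (by omega)) _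

section PS
variable {n : ℕ}

theorem max_eq : maximalIdeal (MvPowerSeries (Fin n) k) =
    Ideal.span (Set.range (MvPowerSeries.X : Fin n → MvPowerSeries (Fin n) k)) := by
  classical
  apply le_antisymm
  · intro f hf
    rw [mem_maximalIdeal, mem_nonunits_iff, MvPowerSeries.isUnit_iff_constantCoeff,
      isUnit_iff_ne_zero, not_not] at hf
    have hex : ∀ m : Fin n →₀ ℕ, m ≠ 0 → ∃ i, m i ≠ 0 := fun m hm => by
      by_contra h
      push Not at h
      exact hm (Finsupp.ext h)
    choose ix hix using hex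
    let g : Fin n → MvPowerSeries (Fin n) k := fun i m =>
      if h : m ≠ 0 then (if ix m h = i then MvPowerSeries.coeff m f else 0) else 0
    have hg : ∀ i m, MvPowerSeries.coeff m (g i) =
      if h : m ≠ 0 then (if ix m h = i then MvPowerSeries.coeff m f else 0) else 0 := fun _ _ => rfl
    have hf' : f = ∑ i, g i := by
      ext m
      rw [map_sum]
      simp only [hg]
      by_cases hm : m = 0
      · simp [hm, hf]
      · simp [hm]
    rw [hf']
    refine Ideal.sum_mem _ fun i _ => ?_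
    obtain ⟨u, hu⟩ : (MvPowerSeries.X i : MvPowerSeries (Fin n) k) ∣ g i := by
      rw [MvPowerSeries.X_dvd_iff]
      intro m hm
      rw [hg]
      split_ifs with h1 h2
      · exact absurd hm (h2 ▸ hix m h1)
      · rfl
      · rfl
    rw [hu]
    exact Ideal.mul_mem_right _ _ (Ideal.subset_span ⟨i, rfl⟩)
  · rw [Ideal.span_le]
    rintro _ ⟨i, rfl⟩
    rw [SetLike.mem_coe, mem_maximalIdeal, mem_nonunits_iff, MvPowerSeries.isUnit_iff_constantCoeff]
    simp

theorem res_surj : Function.Surjective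
    (algebraMap k (ResidueField (MvPowerSeries (Fin n) k))) := by
  intro z
  obtain ⟨f, rfl⟩ := residue_surjective z
  refine ⟨MvPowerSeries.constantCoeff f, ?_⟩
  change residue _ (MvPowerSeries.C (MvPowerSeries.constantCoeff f)) = _
  refine Ideal.Quotient.eq.2 ?_
  rw [mem_maximalIdeal, mem_nonunits_iff, MvPowerSeries.isUnit_iff_constantCoeff]
  simp

theorem col_eq_length (J : Ideal (MvPowerSeries (Fin n) k)) :
    col k J = Module.length (MvPowerSeries (Fin n) k) (MvPowerSeries (Fin n) k ⧸ J) := by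
  have h1 : Module.length (ResidueField k) (ResidueField (MvPowerSeries (Fin n) k)) = 1 := by
    rw [Module.length_eq_of_surjective (R := ResidueField (MvPowerSeries (Fin n) k)),
      Module.length_eq_one]
    intro z
    obtain ⟨c, rfl⟩ := res_surj z
    exact ⟨residue k c, rfl⟩
  rw [col, IsLocalRing.length_restrictScalars k (MvPowerSeries (Fin n) k), h1, mul_one]

theorem col_max : col k (maximalIdeal (MvPowerSeries (Fin n) k)) ≠ ⊤ := by
  have : col k (maximalIdeal (MvPowerSeries (Fin n) k)) = 1 := by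
    change Module.length k (ResidueField (MvPowerSeries (Fin n) k)) = 1
    rw [Module.length_eq_of_surjective (res_surj (n := n)), Module.length_eq_one]
  rw [this]; exact ENat.one_ne_top

end PS

/-- the ideal generated by the first `i` of the linear forms with coefficient matrix `c` -/
noncomputable def lin {d : ℕ} (c : Fin d → Fin (d + 1) → k) (i : ℕ) :
    Ideal (MvPowerSeries (Fin (d + 1)) k) :=
  Ideal.span {f : MvPowerSeries (Fin (d + 1)) k | ∃ j : Fin d, j.val < i ∧
    f = ∑ t : Fin (d + 1), c j t • (MvPowerSeries.X t : MvPowerSeries (Fin (d + 1)) k)}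

theorem generic_le {d : ℕ} (I : Ideal (MvPowerSeries (Fin (d + 1)) k)) (a b : ℕ) (hb : b ≤ d)
    (hE : E I I (Submodule.span k (Set.range MvPowerSeries.X)) a 0 b ≠ ⊤) {ε : ℝ} (hε : 0 < ε) :
    ∃ P : MvPolynomial (Fin d × Fin (d + 1)) k, P ≠ 0 ∧ ∀ c : Fin d → Fin (d + 1) → k,
      MvPolynomial.eval (fun p => c p.1 p.2) P ≠ 0 → ∃ z : ℤ,
        Tendsto (fun t : ℕ => (a.factorial : ℝ) * ((col k (I ^ t ⊔ lin c b)).toNat : ℝ) / (t : ℝ) ^ a)
          atTop (𝓝 z) ∧
        (z : ℝ) ≤ (E I I (Submodule.span k (Set.range MvPowerSeries.X)) a 0 b).toReal + ε := by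
  classical
  have hlt : E I I (Submodule.span k (Set.range MvPowerSeries.X)) a 0 b <
      E I I (Submodule.span k (Set.range MvPowerSeries.X)) a 0 b + ENNReal.ofReal ε :=
    ENNReal.lt_add_right hE (by simpa using hε)
  conv_lhs at hlt => rw [E]
  obtain ⟨⟨⟨N, J⟩, hN, f, f', x, hf, hf', hx, hJ⟩, hp⟩ := iInf_lt_iff.1 hlt
  change 0 < N at hN
  change ∀ i, f i ∈ I ^ N at hf
  change J = _ at hJ
  change (col k J : ℝ≥0∞) / (N : ℝ≥0∞) ^ (a + 0) < _ at hp
  have hJt : col k J ≠ ⊤ := by
    intro h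
    rw [h, ENat.toENNReal_top,
      ENNReal.top_div_of_ne_top (ENNReal.pow_ne_top (ENNReal.natCast_ne_top _))] at hp
    exact not_top_lt hp
  obtain ⟨C, hC⟩ := ENat.ne_top_iff_exists.1 hJt
  simp only [Submodule.mem_span_range_iff_exists_fun] at hx
  choose c1 hc1 using hx
  obtain ⟨P, hP, hP'⟩ := col_semi (k := k) (IsNoetherian.noetherian _) col_max
    (Ideal.span (Set.range f)) (fun _ : Fin b => 0)
    (fun (s : Fin d × Fin (d + 1)) (j : Fin b) =>
      if s.1 = Fin.castLE hb j then (MvPowerSeries.X s.2 : MvPowerSeries (Fin (d + 1)) k) else 0)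
    (fun s => if h : s.1.val < b then c1 ⟨s.1.val, h⟩ s.2 else 0)
  have hsum : ∀ (c : Fin d × Fin (d + 1) → k) (j : Fin b),
      (0 : MvPowerSeries (Fin (d + 1)) k) + ∑ s : Fin d × Fin (d + 1), c s •
        (if s.1 = Fin.castLE hb j then (MvPowerSeries.X s.2 : MvPowerSeries (Fin (d + 1)) k) else 0)
        = ∑ t, c (Fin.castLE hb j, t) • MvPowerSeries.X t := by
    intro c j
    rw [zero_add, Fintype.sum_prod_type, Finset.sum_eq_single (Fin.castLE hb j)]
    · simp
    · intro i _ hi; simp [hi]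
    · simp
  simp only [hsum] at hP'
  refine ⟨P, fun h => hP (by rw [h, map_zero]), fun c hc => ?_⟩
  have h1 := hP' _ hc
  have e1 : Ideal.span (Set.range fun j : Fin b => ∑ t, c (Fin.castLE hb j) t •
      (MvPowerSeries.X t : MvPowerSeries (Fin (d + 1)) k)) = lin c b := by
    rw [lin]
    congr 1
    ext g
    constructor
    · rintro ⟨j, rfl⟩
      exact ⟨Fin.castLE hb j, j.2, rfl⟩
    · rintro ⟨j, hj, rfl⟩
      exact ⟨⟨j.val, hj⟩, rfl⟩
  have e2 : (fun j : Fin b => ∑ t, (if h : (Fin.castLE hb j).val < b then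
      c1 ⟨(Fin.castLE hb j).val, h⟩ t else 0) •
      (MvPowerSeries.X t : MvPowerSeries (Fin (d + 1)) k)) = x := by
    ext1 j
    rw [← hc1 j]
    refine Finset.sum_congr rfl fun t _ => ?_
    rw [dif_pos (by exact j.2)]
    rfl
  rw [e1, e2] at h1
  rw [Set.range_eq_empty f', Ideal.span_empty, sup_bot_eq] at hJ
  rw [← hJ, ← hC] at h1
  obtain ⟨z, hz, hz'⟩ := mult_le I (lin c b) hN f hf h1
  refine ⟨z, hz, hz'.trans ?_⟩
  have h2 := ENNReal.toReal_mono (ENNReal.add_ne_top.2 ⟨hE, ENNReal.ofReal_ne_top⟩) hp.le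
  rw [ENNReal.toReal_add hE ENNReal.ofReal_ne_top, ENNReal.toReal_ofReal hε.le, ← hC] at h2
  simpa using h2

theorem final [Infinite k] (d : ℕ) (I : Ideal (MvPowerSeries (Fin (d + 1)) k))
    (hI : I.radical =
      Ideal.span (Set.range (MvPowerSeries.X : Fin (d + 1) → MvPowerSeries (Fin (d + 1)) k))) :
    ∃ P : MvPolynomial (Fin d × Fin (d + 1)) k, P ≠ 0 ∧ ∀ c : Fin d → Fin (d + 1) → k,
      MvPolynomial.eval (fun p => c p.1 p.2) P ≠ 0 → ∃ e : Fin (d + 1) → ℝ,
        (∀ i : Fin (d + 1), Tendsto (fun n : ℕ => ((d + 1 - i.val).factorial : ℝ) *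
          ((Module.length (MvPowerSeries (Fin (d + 1)) k)
            (MvPowerSeries (Fin (d + 1)) k ⧸ (I ^ n ⊔ lin c i.val))).toNat : ℝ) /
              (n : ℝ) ^ (d + 1 - i.val)) atTop (𝓝 (e i))) ∧
        ∑ i : Fin (d + 1), ((ascPochhammer ℕ (d + 1)).coeff (d + 1 - i.val) : ℝ) * e i ≤
          ((d + 1).factorial : ℝ) * ((Module.length (MvPowerSeries (Fin (d + 1)) k)
            (MvPowerSeries (Fin (d + 1)) k ⧸ I)).toNat : ℝ) := by
  classical
  set V : Submodule k (MvPowerSeries (Fin (d + 1)) k) := Submodule.span k (Set.range MvPowerSeries.X)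
    with hV
  rw [← max_eq] at hI
  have hI1 : I ≠ ⊤ := fun h => (maximalIdeal.isMaximal _).ne_top (by rw [← hI, h, Ideal.radical_top])
  have hI2 : col k I ≠ ⊤ := by
    obtain ⟨N, hN⟩ := Ideal.exists_radical_pow_le_of_fg I (IsNoetherian.noetherian _)
    rw [hI] at hN
    exact ne_top_of_le_ne_top (col_pow_ne_top (IsNoetherian.noetherian _) col_max N) (col_anti hN)
  haveI : FiniteDimensional k V := FiniteDimensional.span_of_finite k (Set.finite_range _)
  have hmain := main_bound (k := k) (d + 1) (MvPowerSeries (Fin (d + 1)) k) V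
    ((finrank_range_le_card _).trans (by simp))
    (by rw [max_eq, hV]; exact (Submodule.span_span_of_tower k _ _).symm) col_max I hI1 hI2
  rw [op_eq_sum, ← Finset.sum_range_reflect, Finset.sum_range_succ] at hmain
  have hsum : ∑ i : Fin (d + 1), (((ascPochhammer ℕ (d + 1)).coeff (d + 1 - i.val) : ℕ) : ℝ≥0∞) *
      E I I V (d + 1 - i.val) 0 i.val ≤ ((d + 1).factorial : ℝ≥0∞) * (col k I : ℝ≥0∞) := by
    refine le_trans (le_of_eq ?_) (le_self_add.trans hmain)
    rw [Finset.sum_range]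
    refine Finset.sum_congr rfl fun i _ => ?_
    have := i.2
    rw [show d + 1 + 1 - 1 - i.val = d + 1 - i.val by omega,
      show d + 1 - (d + 1 - i.val) = i.val by omega]
  obtain ⟨C, hC⟩ := ENat.ne_top_iff_exists.1 hI2
  have hfin : ((d + 1).factorial : ℝ≥0∞) * (col k I : ℝ≥0∞) ≠ ⊤ := by
    rw [← hC]
    exact ENNReal.mul_ne_top (ENNReal.natCast_ne_top _) (ENNReal.natCast_ne_top _)
  have hE : ∀ i : Fin (d + 1), E I I V (d + 1 - i.val) 0 i.val ≠ ⊤ := by
    intro i h
    have h1 := (Finset.single_le_sum (f := fun i : Fin (d + 1) =>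
      (((ascPochhammer ℕ (d + 1)).coeff (d + 1 - i.val) : ℕ) : ℝ≥0∞) *
        E I I V (d + 1 - i.val) 0 i.val) (fun _ _ => zero_le) (Finset.mem_univ i)).trans hsum
    have h2 := coeff_pos d (d - i.val) (by omega)
    rw [show d - i.val + 1 = d + 1 - i.val by have := i.2; omega] at h2
    rw [h, ENNReal.mul_top (by exact_mod_cast h2.ne')] at h1
    exact hfin (top_le_iff.1 h1)
  set S : ℝ := ∑ i : Fin (d + 1), ((ascPochhammer ℕ (d + 1)).coeff (d + 1 - i.val) : ℝ) with hS
  have hS0 : 0 ≤ S := Finset.sum_nonneg fun _ _ => Nat.cast_nonneg _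
  have hε : 0 < 1 / (S + 1) := by positivity
  choose P hP hP' using fun i : Fin (d + 1) =>
    generic_le I (d + 1 - i.val) i.val (by have := i.2; omega) (hE i) hε
  refine ⟨∏ i, P i, Finset.prod_ne_zero_iff.2 fun i _ => hP i, fun c hc => ?_⟩
  rw [map_prod, Finset.prod_ne_zero_iff] at hc
  choose z hz hz' using fun i => hP' i c (hc i (Finset.mem_univ i))
  refine ⟨fun i => z i, fun i => ?_, ?_⟩
  · simpa only [col_eq_length] using hz i
  · rw [← col_eq_length, ← hC, ENat.toNat_natCast]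
    have h1 := ENNReal.toReal_mono hfin hsum
    rw [ENNReal.toReal_sum (fun i _ => ENNReal.mul_ne_top (ENNReal.natCast_ne_top _) (hE i)), ← hC]
      at h1
    simp only [ENNReal.toReal_mul, ENNReal.toReal_natCast, ENat.toENNReal_coe] at h1
    have h2 : ∑ i : Fin (d + 1), ((ascPochhammer ℕ (d + 1)).coeff (d + 1 - i.val) : ℝ) * (z i : ℝ) <
        ((d + 1).factorial : ℝ) * C + 1 := by
      calc _ ≤ ∑ i : Fin (d + 1), ((ascPochhammer ℕ (d + 1)).coeff (d + 1 - i.val) : ℝ) *
            ((E I I V (d + 1 - i.val) 0 i.val).toReal + 1 / (S + 1)) :=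
            Finset.sum_le_sum fun i _ => mul_le_mul_of_nonneg_left (hz' i) (Nat.cast_nonneg _)
        _ = ∑ i : Fin (d + 1), ((ascPochhammer ℕ (d + 1)).coeff (d + 1 - i.val) : ℝ) *
            (E I I V (d + 1 - i.val) 0 i.val).toReal + S * (1 / (S + 1)) := by
            simp only [mul_add, Finset.sum_add_distrib, hS, Finset.sum_mul]
        _ < _ := by
            refine add_lt_add_of_le_of_lt h1 ?_
            rw [mul_one_div, div_lt_one (by positivity)]; linarith
    have h3 : ∑ i : Fin (d + 1), ((ascPochhammer ℕ (d + 1)).coeff (d + 1 - i.val) : ℤ) * z i <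
        ((d + 1).factorial : ℤ) * C + 1 := by exact_mod_cast h2
    have h4 := Int.lt_add_one_iff.1 h3
    beta_reduce
    exact_mod_cast h4

end Pool.Agent.H16Z.Lech
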