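import Mathlib

/-!
Formal rising products acting on tables of numbers.
-/

set_option autoImplicit false

open scoped ENNReal

namespace Pool.Agent.H16Z.Lech

/-- the product of the operators `U + (j + s) V`, `j < n`, applied to a table and read at `(0,0)` -/
noncomputable def op (s : ℕ) : ℕ → (ℕ → ℕ → ℝ≥0∞) → ℝ≥0∞
  | 0, e => e 0 0
  | n + 1, e => op s n (fun a b => e (a + 1) b + ((n + s : ℕ) : ℝ≥0∞) * e a (b + 1))

theorem op_mono (s : ℕ) : ∀ (n : ℕ) (e e' : ℕ → ℕ → ℝ≥0∞), (∀ a b, e a b ≤ e' a b) →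
    op s n e ≤ op s n e'
  | 0, _, _, h => h 0 0
  | n + 1, _, _, h => op_mono s n _ _ fun a b => by
      gcongr
      · exact h _ _
      · exact h _ _

theorem op_add_mul (s : ℕ) (c : ℝ≥0∞) : ∀ (n : ℕ) (e e' : ℕ → ℕ → ℝ≥0∞),
    op s n (fun a b => e a b + c * e' a b) = op s n e + c * op s n e'
  | 0, _, _ => rfl
  | n + 1, e, e' => by
      simp only [op]
      rw [← op_add_mul s c n]
      congr 1
      ext a b
      ring

theorem op_le_shift (s : ℕ) : ∀ (n : ℕ) (e : ℕ → ℕ → ℕ → ℝ≥0∞),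
    (∀ a a' b, e (a + 1) a' b ≤ e a (a' + 1) b + e a a' (b + 1)) →
    op s n (fun a b => e a 0 b) ≤ op (s + 1) n (fun a b => e 0 a b)
  | 0, _, _ => le_rfl
  | n + 1, e, h => by
      simp only [op]
      refine le_trans (op_mono s n _ _ fun a b => ?_) (op_le_shift s n
        (fun a a' b => e a (a' + 1) b + ((n + (s + 1) : ℕ) : ℝ≥0∞) * e a a' (b + 1)) ?_)
      · refine (add_le_add (h a 0 b) le_rfl).trans (le_of_eq ?_)
        push_cast; ring
      · intro a a' b
        refine (add_le_add (h _ _ _) (mul_le_mul_right (h _ _ _) _)).trans (le_of_eq ?_)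
        ring

theorem op_reorder : ∀ (n : ℕ) (e : ℕ → ℕ → ℝ≥0∞),
    op 0 (n + 1) e = op 1 n (fun a b => e (a + 1) b)
  | 0, e => by simp [op]
  | n + 1, e => by
      rw [op, op_reorder n]
      simp only [op, add_zero]

theorem op_rec (n : ℕ) (e : ℕ → ℕ → ℕ → ℝ≥0∞)
    (h : ∀ a a' b, e (a + 1) a' b ≤ e a (a' + 1) b + e a a' (b + 1)) :
    op 0 (n + 1) (fun a b => e a 0 b) ≤
      op 0 (n + 1) (fun a b => e 0 a b) + ((n + 1 : ℕ) : ℝ≥0∞) * op 0 n (fun a b => e a 0 (b + 1)) := by
  rw [op_reorder n (fun a b => e 0 a b), op]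
  refine le_trans (op_mono 0 n _ (fun a b => e a 1 b + ((n + 1 : ℕ) : ℝ≥0∞) * e a 0 (b + 1))
    fun a b => ?_) ?_
  · refine (add_le_add (h a 0 b) le_rfl).trans (le_of_eq ?_)
    push_cast; ring
  · rw [op_add_mul]
    exact add_le_add (op_le_shift 0 n (fun a a' b => e a (a' + 1) b) fun a a' b => h _ _ _) le_rfl

theorem op_zero (s : ℕ) : ∀ n : ℕ, op s n (fun _ _ => 0) = 0
  | 0 => rfl
  | n + 1 => by simp only [op, mul_zero, add_zero]; exact op_zero s n

theorem op_eq_sum : ∀ (n : ℕ) (e : ℕ → ℕ → ℝ≥0∞), op 0 n e =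
    ∑ j ∈ Finset.range (n + 1), (((ascPochhammer ℕ n).coeff j : ℕ) : ℝ≥0∞) * e j (n - j)
  | 0, e => by simp [op]
  | n + 1, e => by
      rw [op, op_eq_sum n, Finset.sum_range_succ' _ (n + 1), ascPochhammer_succ_right]
      simp only [mul_add, Finset.sum_add_distrib, Polynomial.coeff_add, Polynomial.coeff_mul_X,
        Polynomial.coeff_mul_natCast, Polynomial.mul_coeff_zero, Polynomial.coeff_X_zero, mul_zero,
        zero_add, add_zero, Nat.cast_add, Nat.cast_mul, Nat.cast_id, add_mul,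
        Nat.add_sub_add_right, Nat.sub_zero, Polynomial.coeff_natCast_ite, if_true]
      rw [add_assoc]
      congr 1
      rw [Finset.sum_range_succ', Finset.sum_range_succ _ n,
        Polynomial.coeff_eq_zero_of_natDegree_lt (p := ascPochhammer ℕ n) (n := n + 1)
          (by rw [ascPochhammer_natDegree]; omega)]
      simp only [Nat.cast_zero, zero_mul, add_zero, Nat.sub_zero, mul_assoc]
      congr 1
      refine Finset.sum_congr rfl fun j hj => ?_
      rw [show n - (j + 1) + 1 = n - j by have := Finset.mem_range.1 hj; omega]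

end Pool.Agent.H16Z.Lech
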