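import Pool.Agent.H16Z.Lech.Semi
import Pool.Agent.H16Z.Lech.Op

/-!
An elementary substitute for mixed multiplicities.
-/

set_option autoImplicit false

open scoped ENNReal

namespace Pool.Agent.H16Z.Lech

variable {k R : Type*} [Field k] [CommRing R] [Algebra k R]

/-- ideals generated by `a` elements of `I ^ N`, `a'` elements of `I' ^ N`, `b` elements of `V` -/
def T (I I' : Ideal R) (V : Submodule k R) (N a a' b : ℕ) : Set (Ideal R) :=
  {J | ∃ (f : Fin a → R) (f' : Fin a' → R) (x : Fin b → R), (∀ i, f i ∈ I ^ N) ∧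
    (∀ i, f' i ∈ I' ^ N) ∧ (∀ i, x i ∈ V) ∧
    J = Ideal.span (Set.range f) ⊔ Ideal.span (Set.range f') ⊔ Ideal.span (Set.range x)}

/-- the normalised least colength -/
noncomputable def E (I I' : Ideal R) (V : Submodule k R) (a a' b : ℕ) : ℝ≥0∞ :=
  ⨅ p : {p : ℕ × Ideal R // 0 < p.1 ∧ p.2 ∈ T I I' V p.1 a a' b},
    (col k p.1.2 : ℝ≥0∞) / (p.1.1 : ℝ≥0∞) ^ (a + a')

variable {I I' : Ideal R} {V : Submodule k R}

theorem E_le {N a a' b : ℕ} {J : Ideal R} (hN : 0 < N) (hJ : J ∈ T I I' V N a a' b) :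
    E I I' V a a' b ≤ (col k J : ℝ≥0∞) / (N : ℝ≥0∞) ^ (a + a') :=
  iInf_le_of_le ⟨(N, J), hN, hJ⟩ le_rfl

theorem le_E {a a' b : ℕ} {y : ℝ≥0∞} (h : ∀ (N : ℕ) (J : Ideal R), 0 < N → J ∈ T I I' V N a a' b →
    y ≤ (col k J : ℝ≥0∞) / (N : ℝ≥0∞) ^ (a + a')) : y ≤ E I I' V a a' b :=
  le_iInf fun p => h p.1.1 p.1.2 p.2.1 p.2.2

theorem T_pow {N a a' b : ℕ} {J : Ideal R} (hJ : J ∈ T I I' V N a a' b) (M : ℕ) :
    ∃ J' ∈ T I I' V (N * M) a a' b, col k J' ≤ (M ^ (a + a') : ℕ) * col k J := by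
  obtain ⟨f, f', x, hf, hf', hx, rfl⟩ := hJ
  refine ⟨_, ⟨fun i => f i ^ M, fun i => f' i ^ M, x, fun i => ?_, fun i => ?_, hx, rfl⟩, ?_⟩
  · rw [pow_mul]; exact Ideal.pow_mem_pow (hf i) M
  · rw [pow_mul]; exact Ideal.pow_mem_pow (hf' i) M
  · rw [sup_right_comm]
    refine (col_range_pow_le M a' f' _).trans ?_
    rw [pow_add, mul_comm (M ^ a), Nat.cast_mul, mul_assoc]
    gcongr
    rw [sup_assoc, sup_comm]
    refine (col_range_pow_le M a f _).trans (le_of_eq ?_)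
    congr 2
    ac_rfl

theorem div_pow_le {c c' : ℕ∞} {N M e : ℕ} (hM : 0 < M) (h : c' ≤ (M ^ e : ℕ) * c) :
    (c' : ℝ≥0∞) / ((N * M : ℕ) : ℝ≥0∞) ^ e ≤ (c : ℝ≥0∞) / (N : ℝ≥0∞) ^ e := by
  have h1 : (c' : ℝ≥0∞) ≤ (M : ℝ≥0∞) ^ e * c := by
    have := ENat.toENNReal_mono h
    simpa using this
  have hM0 : (M : ℝ≥0∞) ^ e ≠ 0 := pow_ne_zero _ (by exact_mod_cast hM.ne')
  have hMt : (M : ℝ≥0∞) ^ e ≠ ⊤ := ENNReal.pow_ne_top (ENNReal.natCast_ne_top _)
  refine (ENNReal.div_le_div_right h1 _).trans (le_of_eq ?_)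
  rw [Nat.cast_mul, mul_pow, mul_comm ((N : ℝ≥0∞) ^ e), ENNReal.mul_div_mul_left _ _ hM0 hMt]

open IsLocalRing in
theorem T_simul [Infinite k] [IsLocalRing R] (hm : (maximalIdeal R).FG)
    (hres : col k (maximalIdeal R) ≠ ⊤) {N a a' b : ℕ} {J₁ J₂ : Ideal R}
    (h₁ : J₁ ∈ T I I' V N a a' b) (h₂ : J₂ ∈ T I I' V N a a' b) (A B : Ideal R) :
    ∃ J ∈ T I I' V N a a' b, col k (A ⊔ J) ≤ col k (A ⊔ J₁) ∧ col k (B ⊔ J) ≤ col k (B ⊔ J₂) := by
  obtain ⟨f, f', x, hf, hf', hx, rfl⟩ := h₁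
  obtain ⟨g, g', y, hg, hg', hy, rfl⟩ := h₂
  obtain ⟨t, -, h1, h2⟩ := col_simul (k := k) hm hres A B (Sum.elim (Sum.elim f f') x)
    (Sum.elim (Sum.elim g g') y)
  have e : (fun i => Sum.elim (Sum.elim f f') x i +
      t • (Sum.elim (Sum.elim g g') y i - Sum.elim (Sum.elim f f') x i)) =
      Sum.elim (Sum.elim (fun i => f i + t • (g i - f i)) (fun i => f' i + t • (g' i - f' i)))
        (fun i => x i + t • (y i - x i)) := by
    ext i
    rcases i with (i | i) | i <;> rfl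
  rw [e] at h1 h2
  simp only [Set.Sum.elim_range, Ideal.span_union] at h1 h2
  refine ⟨_, ⟨_, _, _, fun i => ?_, fun i => ?_, fun i => ?_, rfl⟩, h1, h2⟩
  · exact Ideal.add_mem _ (hf i) (Submodule.smul_of_tower_mem _ _ (Ideal.sub_mem _ (hg i) (hf i)))
  · exact Ideal.add_mem _ (hf' i)
      (Submodule.smul_of_tower_mem _ _ (Ideal.sub_mem _ (hg' i) (hf' i)))
  · exact V.add_mem (hx i) (V.smul_mem _ (V.sub_mem (hy i) (hx i)))

open IsLocalRing in
theorem E_sub [Infinite k] [IsLocalRing R] (hm : (maximalIdeal R).FG)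
    (hres : col k (maximalIdeal R) ≠ ⊤) (h : ∀ x ∈ V, ∀ g ∈ I', x * g ∈ I) (a a' b : ℕ) :
    E I I' V (a + 1) a' b ≤ E I I' V a (a' + 1) b + E I I' V a a' (b + 1) := by
  refine ENNReal.le_iInf_add_iInf fun p q => ?_
  obtain ⟨⟨N₁, J₁⟩, hN₁, hJ₁⟩ := p
  obtain ⟨⟨N₂, J₂⟩, hN₂, hJ₂⟩ := q
  dsimp only at *
  obtain ⟨K₁, hK₁, c₁⟩ := T_pow hJ₁ N₂
  obtain ⟨K₂, hK₂, c₂⟩ := T_pow hJ₂ N₁
  have d₁ := div_pow_le (N := N₁) hN₂ c₁
  have d₂ := div_pow_le (N := N₂) hN₁ c₂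
  rw [mul_comm N₂] at hK₂ d₂
  have hN : 0 < N₁ * N₂ := Nat.mul_pos hN₁ hN₂
  generalize N₁ * N₂ = N at *
  refine le_trans ?_ (add_le_add d₁ d₂)
  obtain ⟨f, f', x, hf, hf', hx, rfl⟩ := hK₁
  obtain ⟨g, g', y, hg, hg', hy, rfl⟩ := hK₂
  obtain ⟨J, ⟨u, u', z, hu, hu', hz, rfl⟩, h1, h2⟩ := T_simul (I := I) (I' := I') (V := V) hm hres
    (N := N) (a := a) (a' := a') (b := b)
    ⟨f, fun i => f' i.succ, x, hf, fun i => hf' _, hx, rfl⟩
    ⟨g, g', fun i => y i.succ, hg, hg', fun i => hy _, rfl⟩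
    (Ideal.span {f' 0}) (Ideal.span {y 0})
  have hmem : f' 0 * y 0 ^ N ∈ I ^ N := by
    have h3 : I' * Ideal.span {y 0} ≤ I := by
      rw [mul_comm, Ideal.span_singleton_mul_le_iff]
      intro g hg
      exact h _ (hy 0) g hg
    refine Ideal.pow_right_mono h3 N ?_
    rw [mul_pow]
    exact Ideal.mul_mem_mul (hf' 0) (Ideal.pow_mem_pow (Ideal.mem_span_singleton_self _) N)
  refine (E_le hN ⟨Fin.cons (f' 0 * y 0 ^ N) u, u', z, fun i => ?_, hu', hz, rfl⟩).trans ?_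
  · refine Fin.cases ?_ (fun i => ?_) i
    · exact hmem
    · exact hu i
  set J := Ideal.span (Set.range u) ⊔ Ideal.span (Set.range u') ⊔ Ideal.span (Set.range z) with hJ
  have e0 : Ideal.span (Set.range (Fin.cons (f' 0 * y 0 ^ N) u : Fin (a + 1) → R)) ⊔
      Ideal.span (Set.range u') ⊔ Ideal.span (Set.range z) = J ⊔ Ideal.span {f' 0 * y 0 ^ N} := by
    rw [Fin.range_cons, Ideal.span_insert, hJ]; ac_rfl
  have e1 : Ideal.span {f' 0} ⊔ (Ideal.span (Set.range f) ⊔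
      Ideal.span (Set.range fun i : Fin a' => f' i.succ) ⊔ Ideal.span (Set.range x)) =
      Ideal.span (Set.range f) ⊔ Ideal.span (Set.range f') ⊔ Ideal.span (Set.range x) := by
    rw [span_range_succ f']; ac_rfl
  have e2 : Ideal.span {y 0} ⊔ (Ideal.span (Set.range g) ⊔ Ideal.span (Set.range g') ⊔
      Ideal.span (Set.range fun i : Fin b => y i.succ)) =
      Ideal.span (Set.range g) ⊔ Ideal.span (Set.range g') ⊔ Ideal.span (Set.range y) := by
    rw [span_range_succ y]; ac_rfl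
  rw [e1, sup_comm] at h1
  rw [e2, sup_comm] at h2
  have h3 := (col_mul_le (k := k) J (f' 0) (y 0 ^ N)).trans
    (add_le_add h1 ((col_pow_le J (y 0) N).trans (mul_le_mul_right h2 _)))
  rw [e0]
  have h4 := ENat.toENNReal_mono h3
  rw [ENat.toENNReal_add, ENat.toENNReal_mul, ENat.toENNReal_coe] at h4
  refine (ENNReal.div_le_div_right h4 _).trans (le_of_eq ?_)
  rw [ENNReal.add_div, show a + 1 + a' = a + (a' + 1) by ring]
  congr 1
  rw [← add_assoc, pow_succ', ENNReal.mul_div_mul_left _ _ (by exact_mod_cast hN.ne')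
    (ENNReal.natCast_ne_top _)]

theorem E_left_le (I₂ : Ideal R) (a b : ℕ) : E I I₂ V a 0 b ≤ E I I' V a 0 b := by
  refine le_iInf fun ⟨⟨N, J⟩, hN, f, f', x, hf, _, hx, hJ⟩ => ?_
  exact E_le hN ⟨f, f', x, hf, fun i => i.elim0, hx, hJ⟩

theorem E_swap_le (a b : ℕ) : E I I' V 0 a b ≤ E I' I' V a 0 b := by
  refine le_iInf fun ⟨⟨N, J⟩, hN, f, f', x, hf, _, hx, hJ⟩ => ?_
  refine (E_le hN (J := J) ⟨f', f, x, fun i => i.elim0, hf, hx, ?_⟩).trans (le_of_eq ?_)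
  · rw [sup_comm (Ideal.span (Set.range f'))]; exact hJ
  · rw [add_comm]

theorem E_top (a b : ℕ) : E (⊤ : Ideal R) I' V (a + 1) 0 b = 0 := by
  refine le_antisymm ((E_le one_pos (J := ⊤) ⟨fun _ => 1, fun _ => 0, fun _ => 0, by simp,
    fun i => i.elim0, fun _ => V.zero_mem, ?_⟩).trans ?_) zero_le
  · rw [Set.range_const, Ideal.span_singleton_one]; simp
  · simp [col_top]

theorem col_map_quot (x : R) (J : Ideal R) :
    col k (J ⊔ Ideal.span {x}) ≤ col k (J.map (Ideal.Quotient.mk (Ideal.span {x}))) := by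
  rw [sup_comm]
  exact (DoubleQuot.quotQuotEquivQuotSupₐ k (Ideal.span {x}) J).toLinearEquiv.length_eq.ge

theorem col_map_quot' (x : R) (J : Ideal R) :
    col k (J.map (Ideal.Quotient.mk (Ideal.span {x}))) ≤ col k (J ⊔ Ideal.span {x}) := by
  rw [sup_comm]
  exact (DoubleQuot.quotQuotEquivQuotSupₐ k (Ideal.span {x}) J).toLinearEquiv.length_eq.le

theorem E_hyper {x : R} (hx : x ∈ V) (I₂ : Ideal (R ⧸ Ideal.span {x})) (a b : ℕ) :
    E I I' V a 0 (b + 1) ≤ E (I.map (Ideal.Quotient.mk (Ideal.span {x}))) I₂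
      (V.map (Ideal.Quotient.mkₐ k (Ideal.span {x})).toLinearMap) a 0 b := by
  refine le_E ?_
  rintro N J hN ⟨f, f', y, hf, -, hy, hJ⟩
  simp only [← Ideal.map_pow, Ideal.mem_map_iff_of_surjective _ Ideal.Quotient.mk_surjective] at hf
  choose g hg hgf using hf
  choose z hz hzy using hy
  refine (E_le hN ⟨g, Fin.elim0, Fin.cons x z, hg, fun i => i.elim0, fun i => ?_, rfl⟩).trans ?_
  · refine Fin.cases ?_ (fun i => ?_) i
    · exact hx
    · exact hz i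
  refine ENNReal.div_le_div_right (ENat.toENNReal_mono ?_) _
  refine le_trans (le_of_eq ?_) ((col_map_quot (k := k) x
    (Ideal.span (Set.range g) ⊔ Ideal.span (Set.range z))).trans (le_of_eq ?_))
  · rw [Fin.range_cons, Ideal.span_insert, Set.range_eq_empty (Fin.elim0 : Fin 0 → R),
      Ideal.span_empty, sup_bot_eq]
    congr 1; ac_rfl
  · rw [hJ, Ideal.map_sup, Ideal.map_span, Ideal.map_span, ← Set.range_comp, ← Set.range_comp,
      Set.range_eq_empty f', Ideal.span_empty, sup_bot_eq]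
    congr 4
    · exact funext hgf
    · exact funext hzy

open Filter Topology in
theorem E_red {K : Ideal R} (h : K * K ≤ I * K) (a b : ℕ) : E I I V a 0 b ≤ E K K V a 0 b := by
  have hp : ∀ n : ℕ, K ^ (n + 1) ≤ I ^ n * K := by
    intro n
    induction n with
    | zero => simp
    | succ n ih =>
      calc K ^ (n + 1 + 1) = K ^ (n + 1) * K := pow_succ _ _
        _ ≤ I ^ n * K * K := Ideal.mul_mono_left ih
        _ = I ^ n * (K * K) := mul_assoc _ _ _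
        _ ≤ I ^ n * (I * K) := Ideal.mul_mono_right h
        _ = I ^ (n + 1) * K := by rw [pow_succ, mul_assoc]
  refine le_E fun N J hN hJ => ?_
  have hN' : (0 : ℝ) < N := by exact_mod_cast hN
  by_cases hc : col k J = ⊤
  · rw [hc, ENat.toENNReal_top, ENNReal.top_div_of_ne_top (ENNReal.pow_ne_top (ENNReal.natCast_ne_top _))]
    exact le_top
  obtain ⟨c, hc⟩ := ENat.ne_top_iff_exists.1 hc
  have key : ∀ M : ℕ, 2 ≤ M → E I I V a 0 b ≤
      ENNReal.ofReal ((1 / ((N : ℝ) - 1 / M)) ^ a * c) := by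
    intro M hM
    obtain ⟨J', ⟨f, f', x, hf, -, hx, hJ'⟩, hcol⟩ := T_pow hJ M
    have hNM : 0 < N * M := by positivity
    obtain ⟨L, hL⟩ : ∃ L, N * M = L + 1 := ⟨N * M - 1, by omega⟩
    have hL0 : 0 < L := by nlinarith
    refine (E_le hL0 (J := J') ⟨f, f', x, fun i => ?_, fun i => i.elim0, hx, hJ'⟩).trans ?_
    · have := hf i
      rw [hL] at this
      have h5 : I ^ L * K ≤ I ^ L := Ideal.mul_le_left
      exact h5 (hp L this)
    · have h1 := ENat.toENNReal_mono hcol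
      rw [← hc, ← Nat.cast_mul, ENat.toENNReal_coe] at h1
      refine (ENNReal.div_le_div_right h1 _).trans (le_of_eq ?_)
      have hL' : (0 : ℝ) < L := by exact_mod_cast hL0
      have hM' : (0 : ℝ) < M := by exact_mod_cast (by omega : 0 < M)
      have e : (1 / ((N : ℝ) - 1 / M)) = M / L := by
        have : (N : ℝ) * M = L + 1 := by exact_mod_cast hL
        have h2 : (N : ℝ) - 1 / M = L / M := by field_simp; linarith
        rw [h2]; field_simp
      rw [e, div_pow, div_mul_eq_mul_div, ENNReal.ofReal_div_of_pos (pow_pos hL' _),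
        ENNReal.ofReal_pow hL'.le, ENNReal.ofReal_natCast, add_zero, ← ENNReal.ofReal_natCast]
      push_cast; rfl
  have lim : Tendsto (fun M : ℕ => ENNReal.ofReal ((1 / ((N : ℝ) - 1 / M)) ^ a * c)) atTop
      (𝓝 (ENNReal.ofReal ((1 / ((N : ℝ) - 0)) ^ a * c))) := by
    refine ENNReal.tendsto_ofReal (Tendsto.mul_const _ (Tendsto.pow ?_ _))
    exact tendsto_const_nhds.div (tendsto_const_nhds.sub tendsto_one_div_atTop_nhds_zero_nat)
      (by simpa using hN'.ne')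
  refine (ge_of_tendsto lim (eventually_atTop.2 ⟨2, key⟩)).trans (le_of_eq ?_)
  rw [sub_zero, ← hc, ENat.toENNReal_coe, div_pow, one_pow, div_mul_eq_mul_div, one_mul,
    ENNReal.ofReal_div_of_pos (pow_pos hN' _), ENNReal.ofReal_pow hN'.le, ENNReal.ofReal_natCast,
    ENNReal.ofReal_natCast, add_zero]

end Pool.Agent.H16Z.Lech
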