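import Pool.Agent.H16Z.Lech.Col

/-!
Semicontinuity of the colength in linear families of generators.
-/

set_option autoImplicit false

namespace Pool.Agent.H16Z.Lech

open Module

variable {k : Type*} [Field k]

theorem rank_semi {U W σ : Type*} [AddCommGroup U] [Module k U] [AddCommGroup W] [Module k W]
    [FiniteDimensional k W] [Fintype σ] (φ : U →ₗ[k] W) (ψ : σ → U →ₗ[k] W) (c0 : σ → k) :
    ∃ P : MvPolynomial σ k, MvPolynomial.eval c0 P ≠ 0 ∧ ∀ c : σ → k, MvPolynomial.eval c P ≠ 0 →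
      finrank k (LinearMap.range (φ + ∑ s, c0 s • ψ s)) ≤
        finrank k (LinearMap.range (φ + ∑ s, c s • ψ s)) := by
  classical
  set T := LinearMap.range (φ + ∑ s, c0 s • ψ s) with hT
  obtain ⟨π, hπ⟩ := T.subtype.exists_leftInverse_of_injective T.ker_subtype
  obtain ⟨τ, hτ⟩ := (φ + ∑ s, c0 s • ψ s).rangeRestrict.exists_rightInverse_of_surjective
    (LinearMap.range_rangeRestrict _)
  let b := Module.finBasis k T
  let A : Matrix (Fin (finrank k T)) (Fin (finrank k T)) (MvPolynomial σ k) :=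
    Matrix.of fun i j => MvPolynomial.C (LinearMap.toMatrix b b (π ∘ₗ φ ∘ₗ τ) i j) +
      ∑ s, MvPolynomial.X s * MvPolynomial.C (LinearMap.toMatrix b b (π ∘ₗ ψ s ∘ₗ τ) i j)
  have hA : ∀ c : σ → k, MvPolynomial.eval c A.det =
      LinearMap.det (π ∘ₗ (φ + ∑ s, c s • ψ s) ∘ₗ τ) := by
    intro c
    rw [RingHom.map_det, ← LinearMap.det_toMatrix b]
    congr 1
    ext i j
    simp [A, LinearMap.add_comp, LinearMap.comp_add, LinearMap.toMatrix_apply, map_sum]
  refine ⟨A.det, ?_, fun c hc => ?_⟩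
  · rw [hA]
    have : π ∘ₗ (φ + ∑ s, c0 s • ψ s) ∘ₗ τ = LinearMap.id := by
      refine LinearMap.ext fun u => ?_
      have h1 : (φ + ∑ s, c0 s • ψ s) (τ u) = u.1 := congrArg Subtype.val (LinearMap.congr_fun hτ u)
      change π ((φ + ∑ s, c0 s • ψ s) (τ u)) = u
      rw [h1]
      exact LinearMap.congr_fun hπ u
    rw [this, LinearMap.det_id]; exact one_ne_zero
  · rw [hA] at hc
    have hinj : Function.Injective (π ∘ₗ (φ + ∑ s, c s • ψ s) ∘ₗ τ) := by
      have := (LinearMap.isUnit_iff_isUnit_det _).2 (isUnit_iff_ne_zero.2 hc)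
      exact LinearMap.ker_eq_bot.1 ((LinearMap.isUnit_iff_ker_eq_bot _).1 this)
    have hinj2 : Function.Injective ((φ + ∑ s, c s • ψ s).rangeRestrict ∘ₗ τ) := by
      intro u v huv
      apply hinj
      have := congrArg Subtype.val huv
      change π ((φ + ∑ s, c s • ψ s) (τ u)) = π ((φ + ∑ s, c s • ψ s) (τ v))
      exact congrArg π this
    exact LinearMap.finrank_le_finrank_of_injective hinj2

variable {R : Type*} [CommRing R] [Algebra k R]

theorem col_sup_eq {U : Type*} [AddCommGroup U] [Module k U] (J M : Ideal R)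
    [FiniteDimensional k (R ⧸ M)] (φ : U →ₗ[k] R ⧸ M)
    (h : ∀ w, w ∈ LinearMap.range φ ↔ ∃ r ∈ J, Ideal.Quotient.mk M r = w) :
    (finrank k (R ⧸ M) : ℕ∞) = finrank k (LinearMap.range φ) + col k (J ⊔ M) := by
  rw [← Module.length_eq_finrank, ← Module.length_eq_finrank]
  refine Module.length_eq_add_of_exact (LinearMap.range φ).subtype
    (Ideal.Quotient.factorₐ k (le_sup_right : M ≤ J ⊔ M)).toLinearMap Subtype.val_injective
    (Ideal.Quotient.factor_surjective le_sup_right) ?_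
  intro w
  obtain ⟨r, rfl⟩ := Ideal.Quotient.mk_surjective w
  change Ideal.Quotient.mk (J ⊔ M) r = 0 ↔ _
  rw [Ideal.Quotient.eq_zero_iff_mem]
  constructor
  · intro hr
    obtain ⟨u, hu, v, hv, rfl⟩ := Submodule.mem_sup.1 hr
    refine ⟨⟨_, (h _).2 ⟨u, hu, rfl⟩⟩, ?_⟩
    change Ideal.Quotient.mk M u = _
    rw [Ideal.Quotient.eq]; simpa using hv
  · rintro ⟨⟨w, hw⟩, hw'⟩
    obtain ⟨u, hu, rfl⟩ := (h _).1 hw
    change Ideal.Quotient.mk M u = _ at hw'
    rw [Ideal.Quotient.eq] at hw'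
    have : r = u - (u - r) := by ring
    rw [this]
    exact Ideal.sub_mem _ (Ideal.mem_sup_left hu) (Ideal.mem_sup_right hw')

open IsLocalRing in
theorem col_semi [IsLocalRing R] (hm : (maximalIdeal R).FG) (hres : col k (maximalIdeal R) ≠ ⊤)
    {ι σ : Type*} [Fintype ι] [Fintype σ] (A : Ideal R) (f : ι → R) (g : σ → ι → R) (c0 : σ → k) :
    ∃ P : MvPolynomial σ k, MvPolynomial.eval c0 P ≠ 0 ∧ ∀ c : σ → k, MvPolynomial.eval c P ≠ 0 →
      col k (A ⊔ Ideal.span (Set.range fun i => f i + ∑ s, c s • g s i)) ≤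
        col k (A ⊔ Ideal.span (Set.range fun i => f i + ∑ s, c0 s • g s i)) := by
  classical
  by_cases htop : col k (A ⊔ Ideal.span (Set.range fun i => f i + ∑ s, c0 s • g s i)) = ⊤
  · exact ⟨1, by simp, fun c _ => by rw [htop]; exact le_top⟩
  obtain ⟨n, hn⟩ := ENat.ne_top_iff_exists.1 htop
  set M := maximalIdeal R ^ (n + 1) with hM
  have hfin : FiniteDimensional k (R ⧸ M) := by
    have := Module.length_ne_top_iff.1 (col_pow_ne_top hm hres (n + 1))
    rw [isFiniteLength_iff_isNoetherian_isArtinian] at this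
    haveI := this.1
    exact Module.IsNoetherian.finite k _
  let q : R →ₗ[k] R ⧸ M := (Ideal.Quotient.mkₐ k M).toLinearMap
  let L : (ι → R) → (ι → R) →ₗ[k] R := fun u =>
    ∑ i, (LinearMap.mulRight k (u i)) ∘ₗ LinearMap.proj i
  have hL : ∀ u r, L u r = ∑ i, r i * u i := by intro u r; simp [L, LinearMap.sum_apply]
  let φ : (A.restrictScalars k × (ι → R)) →ₗ[k] R ⧸ M :=
    q ∘ₗ LinearMap.coprod (A.restrictScalars k).subtype (L f)
  let ψ : σ → (A.restrictScalars k × (ι → R)) →ₗ[k] R ⧸ M := fun s =>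
    q ∘ₗ LinearMap.coprod 0 (L (g s))
  have key : ∀ c : σ → k, (finrank k (R ⧸ M) : ℕ∞) =
      finrank k (LinearMap.range (φ + ∑ s, c s • ψ s)) +
        col k ((A ⊔ Ideal.span (Set.range fun i => f i + ∑ s, c s • g s i)) ⊔ M) := by
    intro c
    have hev : ∀ u : A.restrictScalars k × (ι → R), (φ + ∑ s, c s • ψ s) u =
        Ideal.Quotient.mk M (u.1.1 + ∑ i, u.2 i * (f i + ∑ s, c s • g s i)) := by
      intro u
      have : (φ + ∑ s, c s • ψ s) u = q (u.1.1 + L f u.2 + ∑ s, c s • L (g s) u.2) := by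
        simp [φ, ψ, LinearMap.sum_apply, map_sum]
      rw [this]
      change Ideal.Quotient.mk M _ = _
      congr 1
      simp only [hL, mul_add, Finset.sum_add_distrib, Finset.mul_sum, Finset.smul_sum,
        mul_smul_comm, add_assoc]
      rw [Finset.sum_comm]
    refine col_sup_eq _ _ _ fun w => ⟨?_, ?_⟩
    · rintro ⟨u, rfl⟩
      refine ⟨_, ?_, (hev u).symm⟩
      refine Submodule.add_mem_sup u.1.2 (Ideal.sum_mem _ fun i _ => Ideal.mul_mem_left _ _ ?_)
      exact Ideal.subset_span ⟨i, rfl⟩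
    · rintro ⟨r, hr, rfl⟩
      obtain ⟨u, hu, v, hv, rfl⟩ := Submodule.mem_sup.1 hr
      obtain ⟨a, rfl⟩ := Ideal.mem_span_range_iff_exists_fun.1 hv
      exact ⟨(⟨u, hu⟩, a), hev _⟩
  obtain ⟨P, hP, hP'⟩ := rank_semi φ ψ c0
  refine ⟨P, hP, fun c hc => ?_⟩
  have h1 := key c
  have h2 := key c0
  have h3 := hP' c hc
  have h4 : col k ((A ⊔ Ideal.span (Set.range fun i => f i + ∑ s, c s • g s i)) ⊔ M) ≤ n := by
    have h5 : col k ((A ⊔ Ideal.span (Set.range fun i => f i + ∑ s, c0 s • g s i)) ⊔ M) ≤ n := by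
      rw [hn]; exact col_anti le_sup_left
    refine le_trans ?_ h5
    rw [h1] at h2
    have h6 : (finrank k (LinearMap.range (φ + ∑ s, c0 s • ψ s)) : ℕ∞) ≤
      finrank k (LinearMap.range (φ + ∑ s, c s • ψ s)) := by exact_mod_cast h3
    refine (ENat.add_le_add_iff_left (ENat.natCast_ne_top
      (finrank k (LinearMap.range (φ + ∑ s, c s • ψ s))))).1 ?_
    rw [h2]
    exact add_le_add h6 le_rfl
  have h7 := pow_le_of_col hm _ n h4
  rw [← hn]
  refine le_trans (le_of_eq ?_) h4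
  rw [sup_eq_left.2 ((Ideal.pow_le_pow_right (Nat.le_succ n)).trans h7)]

theorem exists_eval_ne_zero [Infinite k] {σ : Type*} {P : MvPolynomial σ k} (hP : P ≠ 0) :
    ∃ c : σ → k, MvPolynomial.eval c P ≠ 0 := by
  by_contra h
  push Not at h
  exact hP (MvPolynomial.funext fun c => by rw [h c, map_zero])

open IsLocalRing in
/-- two tuples can be replaced by one tuple on the line through them -/
theorem col_simul [Infinite k] [IsLocalRing R] (hm : (maximalIdeal R).FG)
    (hres : col k (maximalIdeal R) ≠ ⊤) {ι : Type*} [Fintype ι] (A B : Ideal R) (f g : ι → R) :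
    ∃ t : k, t ≠ 0 ∧
      col k (A ⊔ Ideal.span (Set.range fun i => f i + t • (g i - f i))) ≤
        col k (A ⊔ Ideal.span (Set.range f)) ∧
      col k (B ⊔ Ideal.span (Set.range fun i => f i + t • (g i - f i))) ≤
        col k (B ⊔ Ideal.span (Set.range g)) := by
  obtain ⟨P, hP, hP'⟩ := col_semi (k := k) hm hres A f (fun (_ : Unit) i => g i - f i) (fun _ => 0)
  obtain ⟨Q, hQ, hQ'⟩ := col_semi (k := k) hm hres B f (fun (_ : Unit) i => g i - f i) (fun _ => 1)
  have h1 : P ≠ 0 := fun h => hP (by rw [h, map_zero])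
  have h2 : Q ≠ 0 := fun h => hQ (by rw [h, map_zero])
  obtain ⟨c, hc⟩ := exists_eval_ne_zero
    (mul_ne_zero (mul_ne_zero h1 h2) (MvPolynomial.X_ne_zero (R := k) ()))
  rw [map_mul, map_mul, mul_ne_zero_iff, mul_ne_zero_iff, MvPolynomial.eval_X] at hc
  refine ⟨c (), hc.2, ?_, ?_⟩
  · simpa using hP' c hc.1.1
  · simpa using hQ' c hc.1.2

end Pool.Agent.H16Z.Lech
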